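import Pool.Agent.LibLS20.Base85

/-!
Cochains over `K` and over the complex numbers.
-/

namespace Pool.Agent.LibX1.Strata

open Pool.Agent.LibLS20 TensorProduct

variable {q : ℕ} {K : Type} [Field K] [Algebra K ℂ] {H : Type} [AddCommGroup H] [Module K H]

/-- `f ↦ 1 ⊗ f` on sequences. -/
noncomputable def incC (K : Type) [Field K] [Algebra K ℂ] (H : Type) [AddCommGroup H]
    [Module K H] : (ℕ → H) →ₗ[K] (ℕ → ℂ ⊗[K] H) :=
  LinearMap.pi fun i => inc K H ∘ₗ LinearMap.proj i

/-- The retraction on sequences. -/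
noncomputable def retC (K : Type) [Field K] [Algebra K ℂ] (H : Type) [AddCommGroup H]
    [Module K H] : (ℕ → ℂ ⊗[K] H) →ₗ[K] (ℕ → H) :=
  LinearMap.pi fun i => ret K H ∘ₗ LinearMap.proj i

theorem incC_apply (f : ℕ → H) (i : ℕ) : incC K H f i = inc K H (f i) := rfl

theorem retC_apply (f : ℕ → ℂ ⊗[K] H) (i : ℕ) : retC K H f i = ret K H (f i) := rfl

theorem retC_incC (f : ℕ → H) : retC K H (incC K H f) = f := by
  funext i
  rw [retC_apply, incC_apply, ret_inc]

theorem incC_injective : Function.Injective (incC K H) :=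
  Function.LeftInverse.injective retC_incC

variable (Y : Strata q K H)

theorem incC_d (f : ℕ → H) : Y.baseChange.d (incC K H f) = incC K H (Y.d f) := by
  funext i
  rw [d_apply, incC_apply, incC_apply, incC_apply, d_apply, map_add]
  exact congrArg₂ _ (inc_baseChange _ _) (inc_baseChange _ _)

theorem retC_d (f : ℕ → ℂ ⊗[K] H) : retC K H (Y.baseChange.d f) = Y.d (retC K H f) := by
  funext i
  rw [d_apply, retC_apply, retC_apply, retC_apply, d_apply, map_add]
  exact congrArg₂ _ (ret_baseChange _ _) (ret_baseChange _ _)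

theorem incC_shift (f : ℕ → H) (s : ℕ) :
    ((shift ℂ (ℂ ⊗[K] H)) ^ s) (incC K H f) = incC K H (((shift K H) ^ s) f) := by
  funext i
  rw [shift_pow_apply, incC_apply, incC_apply, shift_pow_apply]

theorem retC_shift (f : ℕ → ℂ ⊗[K] H) (s : ℕ) :
    retC K H (((shift ℂ (ℂ ⊗[K] H)) ^ s) f) = ((shift K H) ^ s) (retC K H f) := by
  funext i
  rw [shift_pow_apply, retC_apply, retC_apply, shift_pow_apply]

theorem incC_S (Λ : Module.End K H) (r : ℤ) (f : ℕ → H) :
    Y.baseChange.S (Λ.baseChange ℂ) r (incC K H f) = incC K H (Y.S Λ r f) := by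
  funext i
  rw [S_apply, incC_apply (Y.S Λ r f) i, S_apply, incC_apply f, incC_apply f, map_sub, map_smul,
    map_smul]
  have h1 : Y.baseChange.rho' (Λ.baseChange ℂ) (inc K H (f (i - 1))) =
      inc K H (Y.rho' Λ (f (i - 1))) := by
    rw [rho'_apply, rho'_apply, map_sub]
    show Λ.baseChange ℂ (Y.rho.baseChange ℂ _) - Y.rho.baseChange ℂ (Λ.baseChange ℂ _) = _
    rw [inc_baseChange, inc_baseChange, inc_baseChange, inc_baseChange]
  have h2 : Y.baseChange.gamma' (Λ.baseChange ℂ) (inc K H (f i)) =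
      inc K H (Y.gamma' Λ (f i)) := by
    rw [gamma'_apply, gamma'_apply, map_sub]
    show Λ.baseChange ℂ (Y.gamma.baseChange ℂ _) - Y.gamma.baseChange ℂ (Λ.baseChange ℂ _) = _
    rw [inc_baseChange, inc_baseChange, inc_baseChange, inc_baseChange]
  rw [h1, h2, ← algebraMap_smul ℂ (i : K), ← algebraMap_smul ℂ ((i : K) - (r : K))]
  simp

theorem incC_wt {m : ℕ} {r : ℤ} {f : ℕ → H} (hf : f ∈ Y.wt m r) :
    incC K H f ∈ Y.baseChange.wt m r := by
  have h1 : Y.wt m r ≤ ((Y.baseChange.wt m r).restrictScalars K).comap (incC K H) := by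
    apply Y.wt_le
    rintro i k j h h' h'' _ ⟨x, hx, rfl⟩
    rw [Submodule.mem_comap]
    apply Y.baseChange.cell_le_wt h h' h''
    refine ⟨inc K H x, inc_mem hx, ?_⟩
    funext l
    rw [incC_apply, LinearMap.single_apply, LinearMap.single_apply]
    by_cases hl : l = i
    · subst hl
      rw [Pi.single_eq_same, Pi.single_eq_same]
    · rw [Pi.single_eq_of_ne hl, Pi.single_eq_of_ne hl, map_zero]
  exact h1 hf

theorem retC_wt {m : ℕ} {r : ℤ} {f : ℕ → ℂ ⊗[K] H} (hf : f ∈ Y.baseChange.wt m r) :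
    retC K H f ∈ Y.wt m r := by
  let T : Submodule ℂ (ℕ → ℂ ⊗[K] H) :=
    { carrier := {x | ∀ c : ℂ, retC K H (c • x) ∈ Y.wt m r}
      zero_mem' := by intro c; rw [smul_zero, map_zero]; exact Submodule.zero_mem _
      add_mem' := by
        intro a b ha hb c
        rw [smul_add, map_add]
        exact Submodule.add_mem _ (ha c) (hb c)
      smul_mem' := by
        intro c a ha c'
        rw [smul_smul]
        exact ha _ }
  have h1 : Y.baseChange.wt m r ≤ T := by
    apply Y.baseChange.wt_le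
    rintro i k j h h' h'' _ ⟨x, hx, rfl⟩ c
    apply Y.cell_le_wt h h' h''
    refine ⟨ret K H (c • x), ret_mem (Submodule.smul_mem _ c hx), ?_⟩
    funext l
    rw [retC_apply, LinearMap.single_apply, Pi.smul_apply, LinearMap.single_apply]
    by_cases hl : l = i
    · subst hl
      rw [Pi.single_eq_same, Pi.single_eq_same]
    · rw [Pi.single_eq_of_ne hl, Pi.single_eq_of_ne hl, smul_zero, map_zero]
  have h2 := h1 hf 1
  rwa [one_smul] at h2

/-- The Laplacian statement descends. -/
theorem laplace_descend {Λ : Module.End K H} {n : ℕ} {r r' : ℤ}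
    (h : ∀ w ∈ Y.baseChange.wt n r', Y.baseChange.d (Y.baseChange.S (Λ.baseChange ℂ) r
      (Y.baseChange.d w)) = 0 → Y.baseChange.d w = 0) :
    ∀ w ∈ Y.wt n r', Y.d (Y.S Λ r (Y.d w)) = 0 → Y.d w = 0 := by
  intro w hw h0
  have h1 := h _ (Y.incC_wt hw) (by
    rw [incC_d, incC_S, incC_d, h0, map_zero])
  rw [incC_d] at h1
  exact incC_injective (h1.trans (map_zero _).symm)

end Pool.Agent.LibX1.Strata
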