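import Pool.Agent.LibLS20.Lef85
import Pool.Agent.LibLS20.Coch85

/-!
The operator `Λ` over `K` and the Laplacian statement over `K`.
-/

namespace Pool.Agent.LibLS20

open Pool.Agent.LibX1 Pool.Agent.LibHL85 TensorProduct

theorem Low_lowers {q : ℕ} {K H : Type} [Field K] [AddCommGroup H] [Module K H]
    {Y : Strata q K H} {n : ℕ} {L Λ : Module.End K H} (h : Low n Y.gr L Λ) : Y.Lowers Λ := by
  intro k j x hx
  rcases Nat.lt_or_ge j 2 with hj | hj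
  · exact Or.inr (h.small k j hj x hx)
  · obtain ⟨i, rfl⟩ : ∃ i, j = i + 2 := ⟨j - 2, by omega⟩
    exact Or.inl ⟨by omega, h.mem k i x hx⟩

/-- The Laplacian statement over the complex numbers for all `Λ` gives it over `K` for some `Λ`. -/
theorem HodgeTheory.exists_laplace {q : ℕ} {K : Type} [Field K] [Algebra K ℂ] {H : Type}
    [AddCommGroup H] [Module K H] {Y : Strata q K H} {n : ℕ}
    {conj : (ℂ ⊗[K] H) →ₛₗ[starRingEnd ℂ] (ℂ ⊗[K] H)}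
    {hpq : ℕ → ℕ → ℕ → Submodule ℂ (ℂ ⊗[K] H)} {L : Module.End K H}
    {I : (ℂ ⊗[K] H) →ₗ[ℂ] (ℂ ⊗[K] H) →ₗ[ℂ] ℂ}
    (h : HodgeTheory Y.baseChange n conj hpq (L.baseChange ℂ) I)
    (hpos : ∀ Λ', Low n Y.baseChange.gr (L.baseChange ℂ) Λ' → ∀ (m : ℕ) (s : ℕ), 1 ≤ s →
      ∀ w ∈ Y.baseChange.wt m (-s + 1),
        Y.baseChange.d (Y.baseChange.S Λ' (-s) (Y.baseChange.d w)) = 0 → Y.baseChange.d w = 0) :
    ∃ Λ : Module.End K H, Y.Lowers Λ ∧ ∀ (m : ℕ) (s : ℕ), 1 ≤ s → ∀ w ∈ Y.wt m (-s + 1),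
      Y.d (Y.S Λ (-s) (Y.d w)) = 0 → Y.d w = 0 := by
  have hL : Lef n Y.gr L := Lef_descend Y.internal h.lef
  obtain ⟨Λ, hΛ⟩ := hL.exists_low
  exact ⟨Λ, Low_lowers hΛ, fun m s hs => Y.laplace_descend (hpos _ (Low_baseChange hΛ) m s hs)⟩

end Pool.Agent.LibLS20
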