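import Pool.Agent.LibX1.Rows

/-!
Hodge theory of the strata of a strictly semistable special fibre which lift to characteristic
zero.
-/

namespace Pool.Agent.LibLS20

open Pool.Agent.LibX1

/-- Hodge theory of the lifted strata. `Y.gr k j` is the complex cohomology in degree `j` of a
smooth projective variety of dimension `n - k` (the lift of `Y^(k+1)`), `conj` is the complex
conjugation, `hpq k p r` is the space of classes of Hodge type `(p, r)`, `L` is the cup product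
with the class of an ample line bundle, `I x y` is the integral of the cup product of `x` and `y`;
`rho` and `gamma` are real, of type `(0, 0)` and `(1, 1)`, they commute with `L`, and `gamma` is
the transpose of `rho` (projection formula). -/
structure HodgeTheory {q : ℕ} {H : Type} [AddCommGroup H] [Module ℂ H] (Y : Strata q ℂ H)
    (n : ℕ) (conj : H →ₛₗ[starRingEnd ℂ] H) (hpq : ℕ → ℕ → ℕ → Submodule ℂ H)
    (L : Module.End ℂ H) (I : H →ₗ[ℂ] H →ₗ[ℂ] ℂ) : Prop where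
  conj_conj : ∀ x, conj (conj x) = x
  conj_rho : ∀ x, conj (Y.rho x) = Y.rho (conj x)
  conj_gamma : ∀ x, conj (Y.gamma x) = Y.gamma (conj x)
  conj_L : ∀ x, conj (L x) = L (conj x)
  /-- Hodge decomposition -/
  hodge : DirectSum.IsInternal fun t : ℕ × ℕ × ℕ => hpq t.1 t.2.1 t.2.2
  hodge_gr : ∀ k p r, hpq k p r ≤ Y.gr k (p + r)
  hodge_conj : ∀ k p r, ∀ x ∈ hpq k p r, conj x ∈ hpq k r p
  hodge_rho : ∀ k p r, ∀ x ∈ hpq k p r, Y.rho x ∈ hpq (k + 1) p r
  hodge_gamma : ∀ k p r, ∀ x ∈ hpq (k + 1) p r, Y.gamma x ∈ hpq k (p + 1) (r + 1)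
  hodge_L : ∀ k p r, ∀ x ∈ hpq k p r, L x ∈ hpq k (p + 1) (r + 1)
  hodge_dim : ∀ k p r, (n < k + p ∨ n < k + r) → hpq k p r = ⊥
  /-- `gamma` is zero on the cohomology of `Y^(1)` -/
  gamma_zero : ∀ j, ∀ x ∈ Y.gr 0 j, Y.gamma x = 0
  L_rho : ∀ x, L (Y.rho x) = Y.rho (L x)
  L_gamma : ∀ x, L (Y.gamma x) = Y.gamma (L x)
  /-- the intersection form -/
  I_type : ∀ k p r k' p' r', ∀ x ∈ hpq k p r, ∀ y ∈ hpq k' p' r', I x y ≠ 0 →
    k = k' ∧ k + p + p' = n ∧ k + r + r' = n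
  I_L : ∀ x y, I (L x) y = I x (L y)
  I_gamma : ∀ x y, I (Y.gamma x) y = I x (Y.rho y)
  I_symm : ∀ k j k' j', ∀ x ∈ Y.gr k j, ∀ y ∈ Y.gr k' j', I x y = (-1) ^ (j * j') * I y x
  /-- hard Lefschetz theorem -/
  hard_inj : ∀ k p r a, k + p + r + a = n → ∀ x ∈ hpq k p r, (L ^ a) x = 0 → x = 0
  hard_surj : ∀ k p r a, k + p + r + a = n → ∀ y ∈ hpq k (p + a) (r + a),
    ∃ x ∈ hpq k p r, (L ^ a) x = y
  /-- Hodge-Riemann bilinear relations for primitive classes -/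
  riemann : ∀ k p r a, k + p + r + a = n → ∀ x ∈ hpq k p r, (L ^ (a + 1)) x = 0 → x ≠ 0 →
    ∃ c : ℝ, 0 < c ∧ Complex.I ^ ((p : ℤ) - r) * (-1) ^ ((p + r) * (p + r - 1) / 2) *
      I ((L ^ a) x) (conj x) = c

end Pool.Agent.LibLS20
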