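import Pool.Agent.LibLS20.Vec
import Pool.Agent.LibLS20.Stmt
import Pool.Agent.LibHL85.Comm

/-!
The operator `Λ` and the Weil element in the situation of `HodgeTheory`.
-/

namespace Pool.Agent.LibLS20

open Finset Pool.Agent.LibX1 Pool.Agent.LibHL85

section glue
variable {F V ι : Type*} [Field F] [AddCommGroup V] [Module F V] [DecidableEq ι]
  {G : ι → Submodule F V}

/-- Linear maps given on the pieces. -/
theorem exists_glue' (hI : DirectSum.IsInternal G) {V' : Type*} [AddCommGroup V'] [Module F V']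
    (φ : ι → V →ₗ[F] V') : ∃ f : V →ₗ[F] V', ∀ i, ∀ x ∈ G i, f x = φ i x := by
  let E : (DirectSum ι fun p => G p) ≃ₗ[F] V :=
    LinearEquiv.ofBijective (DirectSum.coeLinearMap fun p => G p) hI
  refine ⟨(DirectSum.toModule F ι V' fun p => (φ p) ∘ₗ (G p).subtype) ∘ₗ
    E.symm.toLinearMap, ?_⟩
  intro i x hx
  have h1 : E (DirectSum.lof F ι (fun p => G p) i ⟨x, hx⟩) = x :=
    DirectSum.coeLinearMap_lof _ _ _
  have h2 : E.symm x = DirectSum.lof F ι (fun p => G p) i ⟨x, hx⟩ := by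
    rw [LinearEquiv.symm_apply_eq, h1]
  rw [LinearMap.comp_apply, LinearEquiv.coe_coe, h2, DirectSum.toModule_lof]
  rfl

theorem top_glue' (hI : DirectSum.IsInternal G) {S : Submodule F V} (h : ∀ i, G i ≤ S) (x : V) :
    x ∈ S := by
  have h1 : (⨆ i, G i) ≤ S := iSup_le h
  rw [hI.submodule_iSup_eq_top] at h1
  exact h1 Submodule.mem_top

theorem ext_glue' (hI : DirectSum.IsInternal G) {V' : Type*} [AddCommGroup V'] [Module F V']
    {f g : V →ₗ[F] V'} (h : ∀ i, ∀ x ∈ G i, f x = g x) : f = g := by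
  apply LinearMap.ext
  intro x
  have h1 : x ∈ LinearMap.ker (f - g) := by
    refine top_glue' hI (fun i y hy => ?_) x
    rw [LinearMap.mem_ker, LinearMap.sub_apply, h i y hy, sub_self]
  rwa [LinearMap.mem_ker, LinearMap.sub_apply, sub_eq_zero] at h1

end glue

variable {q : ℕ} {H : Type} [AddCommGroup H] [Module ℂ H] {Y : Strata q ℂ H}
    {n : ℕ} {conj : H →ₛₗ[starRingEnd ℂ] H} {hpq : ℕ → ℕ → ℕ → Submodule ℂ H}
    {L Λ : Module.End ℂ H} {I : H →ₗ[ℂ] H →ₗ[ℂ] ℂ}

/-- Properties of the operator `Λ`. -/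
structure Lam (Y : Strata q ℂ H) (n : ℕ) (conj : H →ₛₗ[starRingEnd ℂ] H)
    (hpq : ℕ → ℕ → ℕ → Submodule ℂ H) (L Λ : Module.End ℂ H) (I : H →ₗ[ℂ] H →ₗ[ℂ] ℂ) : Prop where
  lef : Lef n Y.gr L
  low : Low n Y.gr L Λ
  conj_lam : ∀ x, conj (Λ x) = Λ (conj x)
  lam_hodge : ∀ k p r, ∀ x ∈ hpq k (p + 1) (r + 1), Λ x ∈ hpq k p r
  lam_zero : ∀ k p r, (p = 0 ∨ r = 0) → ∀ x ∈ hpq k p r, Λ x = 0
  I_lam : ∀ x y, I (Λ x) y = I x (Λ y)
  cc_rho : Λ * (Λ * Y.rho - Y.rho * Λ) = (Λ * Y.rho - Y.rho * Λ) * Λ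
  cc_gamma : Λ * (Λ * Y.gamma - Y.gamma * Λ) = (Λ * Y.gamma - Y.gamma * Λ) * Λ

/-- The weight operator. -/
def hop (L Λ : Module.End ℂ H) : Module.End ℂ H := L * Λ - Λ * L

theorem hop_apply (hL : Low n Y.gr L Λ) {k j : ℕ} {x : H} (hx : x ∈ Y.gr k j) :
    hop L Λ x = ((k : ℂ) + j - n) • x := by
  rw [hop, LinearMap.sub_apply, Module.End.mul_apply, Module.End.mul_apply, hL.comm k j x hx]

theorem lam_pow_zero (hL : Low n Y.gr L Λ) (r : ℕ) : ∀ k j, j < 2 * r → ∀ x ∈ Y.gr k j,
    (Λ ^ r) x = 0 := by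
  induction r with
  | zero => intro k j hj; omega
  | succ r ih =>
    intro k j hj x hx
    rw [pow_succ, Module.End.mul_apply]
    rcases Nat.lt_or_ge j 2 with h2 | h2
    · rw [hL.small k j h2 x hx, map_zero]
    · obtain ⟨i, rfl⟩ : ∃ i, j = i + 2 := ⟨j - 2, by omega⟩
      exact ih k i (by omega) _ (hL.mem k i x hx)

theorem triple (hf : Lef n Y.gr L) (hL : Low n Y.gr L Λ) : Triple (n + 1) L Λ (hop L Λ) where
  ef := by rw [hop]; abel
  he := by
    apply ext_glue hf.internal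
    intro k j x hx
    rw [Module.End.mul_apply, hop_apply hL (hf.mem k j x hx), LinearMap.add_apply,
      Module.End.mul_apply, hop_apply hL hx, map_smul, LinearMap.smul_apply,
      ← Nat.cast_smul_eq_nsmul ℂ, ← add_smul]
    congr 1
    push_cast
    ring
  hf := by
    apply ext_glue hf.internal
    intro k j x hx
    rw [Module.End.mul_apply, LinearMap.sub_apply, Module.End.mul_apply, hop_apply hL hx,
      LinearMap.smul_apply, map_smul]
    rcases Nat.lt_or_ge j 2 with h2 | h2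
    · rw [hL.small k j h2 x hx]; simp
    · obtain ⟨i, rfl⟩ : ∃ i, j = i + 2 := ⟨j - 2, by omega⟩
      rw [hop_apply hL (hL.mem k i x hx), ← Nat.cast_smul_eq_nsmul ℂ, ← sub_smul]
      congr 1
      push_cast
      ring
  en := by
    apply ext_glue hf.internal
    intro k j x hx
    have h1 := hf.pow_mem hx (n + 1)
    rw [hf.high k _ (by omega)] at h1
    rw [(Submodule.mem_bot ℂ).mp h1, LinearMap.zero_apply]
  fn := by
    apply ext_glue hf.internal
    intro k j x hx
    rw [LinearMap.zero_apply]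
    rcases Nat.lt_or_ge (2 * n) (j + 2 * k) with h | h
    · rw [hf.high k j h] at hx
      rw [(Submodule.mem_bot ℂ).mp hx, map_zero]
    · exact lam_pow_zero hL (n + 1) k j (by omega) x hx

/-- The Weil element. -/
noncomputable def wop (n : ℕ) (L Λ : Module.End ℂ H) : Module.End ℂ H := weil ℂ (n + 1) L Λ

theorem wop_L (hf : Lef n Y.gr L) (hL : Low n Y.gr L Λ) (x : H) :
    wop n L Λ (L x) = -Λ (wop n L Λ x) := by
  have h1 := LinearMap.congr_fun ((triple hf hL).weil_e (K := ℂ)) x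
  exact h1

theorem wop_L_pow (hf : Lef n Y.gr L) (hL : Low n Y.gr L Λ) (b : ℕ) (x : H) :
    wop n L Λ ((L ^ b) x) = (-1 : ℂ) ^ b • (Λ ^ b) (wop n L Λ x) := by
  induction b with
  | zero => simp
  | succ b ih =>
    rw [pow_succ', Module.End.mul_apply, wop_L hf hL, ih, map_smul, ← Module.End.mul_apply,
      ← pow_succ', ← neg_smul]
    congr 1
    ring

theorem weight_rho (hf : Lef n Y.gr L) (hL : Low n Y.gr L Λ) :
    hop L Λ * Y.rho = Y.rho * hop L Λ + Y.rho := by
  apply ext_glue hf.internal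
  intro k j x hx
  rw [Module.End.mul_apply, LinearMap.add_apply, Module.End.mul_apply, hop_apply hL hx,
    hop_apply hL (Y.rho_mem k j x hx), map_smul]
  nth_rewrite 3 [← one_smul ℂ (Y.rho x)]
  rw [← add_smul]
  congr 1
  push_cast
  ring

theorem weight_gamma (hf : Lef n Y.gr L) (hL : Low n Y.gr L Λ)
    (h0 : ∀ j, ∀ x ∈ Y.gr 0 j, Y.gamma x = 0) :
    hop L Λ * Y.gamma = Y.gamma * hop L Λ + Y.gamma := by
  apply ext_glue hf.internal
  intro k j x hx
  rw [Module.End.mul_apply, LinearMap.add_apply, Module.End.mul_apply, hop_apply hL hx, map_smul]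
  rcases k with _ | k
  · rw [h0 j x hx, map_zero, smul_zero, add_zero]
  · rw [hop_apply hL (Y.gamma_mem k j x hx)]
    nth_rewrite 3 [← one_smul ℂ (Y.gamma x)]
    rw [← add_smul]
    congr 1
    push_cast
    ring

/-- `T w = w [Λ, T]`. -/
theorem wop_low (hf : Lef n Y.gr L) (hL : Low n Y.gr L Λ) {T : Module.End ℂ H}
    (h1 : L * T = T * L) (h2 : hop L Λ * T = T * hop L Λ + T)
    (h4 : Λ * (Λ * T - T * Λ) = (Λ * T - T * Λ) * Λ) (x : H) :
    T (wop n L Λ x) = wop n L Λ (Λ (T x) - T (Λ x)) := by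
  have h3 : L * (Λ * T - T * Λ) = (Λ * T - T * Λ) * L + T := by
    have h5 : L * (Λ * T - T * Λ) - (Λ * T - T * Λ) * L - T
        = (hop L Λ * T - T * hop L Λ - T) - (L * T - T * L) * Λ + Λ * (L * T - T * L) := by
      rw [hop]
      noncomm_ring
    have h6 : L * T - T * L = 0 := by rw [h1, sub_self]
    have h7 : hop L Λ * T - T * hop L Λ - T = 0 := by rw [h2]; abel
    rw [h6, h7, zero_mul, mul_zero, sub_zero, add_zero, sub_sub, sub_eq_zero] at h5
    exact h5
  have h5 := (triple hf hL).weil_low (K := ℂ) (T := T) (T' := Λ * T - T * Λ) h1 (by abel) h3 h4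
  exact (LinearMap.congr_fun h5 x).symm

theorem ex_conj {u : Module.End ℂ H} (hu : ∀ x, conj (u x) = u (conj x)) (N : ℕ) (x : H) :
    conj (ex ℂ N u x) = ex ℂ N u (conj x) := by
  have h1 : ∀ i x, conj ((u ^ i) x) = (u ^ i) (conj x) := by
    intro i
    induction i with
    | zero => intro x; rfl
    | succ i ih =>
      intro x
      rw [pow_succ, Module.End.mul_apply, ih, hu, Module.End.mul_apply]
  rw [ex_apply, ex_apply, map_sum]
  refine Finset.sum_congr rfl fun i _ => ?_
  rw [LinearMap.map_smulₛₗ, h1]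
  congr 1
  rw [map_inv₀, map_natCast]

theorem wop_conj (hL : ∀ x, conj (L x) = L (conj x)) (hΛ : ∀ x, conj (Λ x) = Λ (conj x)) (x : H) :
    conj (wop n L Λ x) = wop n L Λ (conj x) := by
  rw [wop, weil, Module.End.mul_apply, Module.End.mul_apply, ex_conj hL, ex_conj (fun y => ?_),
    ex_conj hL]
  · rfl
  · rw [LinearMap.neg_apply, LinearMap.neg_apply, map_neg, hΛ]

/-- An operator which commutes with `L` and `Λ` commutes with `w`. -/
theorem wop_comm {D : Module.End ℂ H} (h1 : ∀ x, D (L x) = L (D x)) (h2 : ∀ x, D (Λ x) = Λ (D x))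
    (x : H) : D (wop n L Λ x) = wop n L Λ (D x) := by
  have key : ∀ {u : Module.End ℂ H}, (∀ x, D (u x) = u (D x)) → ∀ N x,
      D (ex ℂ N u x) = ex ℂ N u (D x) := by
    intro u hu N x
    have h1 : ∀ i x, D ((u ^ i) x) = (u ^ i) (D x) := by
      intro i
      induction i with
      | zero => intro x; rfl
      | succ i ih =>
        intro x
        rw [pow_succ, Module.End.mul_apply, ih, hu, Module.End.mul_apply]
    rw [ex_apply, ex_apply, map_sum]
    refine Finset.sum_congr rfl fun i _ => ?_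
    rw [map_smul, h1]
  rw [wop, weil, Module.End.mul_apply, Module.End.mul_apply, key h1, key (fun y => ?_), key h1]
  · rfl
  · rw [LinearMap.neg_apply, LinearMap.neg_apply, map_neg, h2]

/-- A primitive class is a vector of lowest weight. -/
theorem lowest (hf : Lef n Y.gr L) (hL : Low n Y.gr L Λ) {k j a : ℕ} (hn : k + j + a = n)
    {x : H} (hx : x ∈ Y.gr k j) (h0 : (L ^ (a + 1)) x = 0) : Lowest L Λ a x := by
  have hc : ∀ m : ℕ, L (Λ ((L ^ m) x)) - Λ (L ((L ^ m) x)) = (2 * m - a : ℂ) • (L ^ m) x := by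
    intro m
    rw [hL.comm _ _ _ (hf.pow_mem hx m)]
    congr 1
    have : (n : ℂ) = k + j + a := by rw [← hn]; push_cast; ring
    rw [this]
    push_cast
    ring
  refine ⟨?_, hc, h0⟩
  rcases Nat.lt_or_ge j 2 with h2 | h2
  · exact hL.small k j h2 x hx
  · obtain ⟨i, rfl⟩ : ∃ i, j = i + 2 := ⟨j - 2, by omega⟩
    have h3 : ∀ m : ℕ, (L ^ (m + 1)) (Λ x) = Λ ((L ^ (m + 1)) x) +
        (((m : ℂ) + 1) * (m - a)) • (L ^ m) x := by
      intro m
      induction m with
      | zero =>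
        have h4 := hc 0
        rw [pow_zero, Module.End.one_apply] at h4
        rw [zero_add, pow_one, pow_zero, Module.End.one_apply]
        have h5 : L (Λ x) = Λ (L x) + (L (Λ x) - Λ (L x)) := by abel
        rw [h5, h4]
        congr 2
        push_cast
        ring
      | succ m ih =>
        have h4 := hc (m + 1)
        have h5 : (L ^ (m + 1 + 1)) (Λ x) = L ((L ^ (m + 1)) (Λ x)) := by
          rw [pow_succ' L (m + 1), Module.End.mul_apply]
        have h6 : L ((L ^ m) x) = (L ^ (m + 1)) x := by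
          rw [pow_succ', Module.End.mul_apply]
        have h7 : L ((L ^ (m + 1)) x) = (L ^ (m + 1 + 1)) x := by
          rw [pow_succ' L (m + 1), Module.End.mul_apply]
        rw [h5, ih, map_add, map_smul, h6]
        rw [h7] at h4
        have h8 : L (Λ ((L ^ (m + 1)) x)) = Λ ((L ^ (m + 1 + 1)) x) +
            (2 * ((m + 1 : ℕ) : ℂ) - a) • (L ^ (m + 1)) x := by
          rw [← h4]; abel
        rw [h8, add_assoc, ← add_smul]
        congr 2
        push_cast
        ring
    refine hf.inj k i (a + 2) (by omega) _ (hL.mem k i x hx) ?_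
    have h9 := h3 a
    rw [h0, map_zero, zero_add, sub_self, mul_zero, zero_smul] at h9
    rw [show a + 2 = 1 + (a + 1) by omega, pow_add, Module.End.mul_apply, h9, map_zero]

end Pool.Agent.LibLS20
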