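import Pool.Agent.LibX1.Laplace
import Pool.Agent.LibHL85.Prim

/-!
Extension of scalars to the complex numbers.
-/

namespace Pool.Agent.LibLS20

open Pool.Agent.LibX1 Pool.Agent.LibHL85 TensorProduct

section general

variable {K : Type} [Field K] [Algebra K ℂ] {H : Type} [AddCommGroup H] [Module K H]

/-- `x ↦ 1 ⊗ x`. -/
noncomputable def inc (K : Type) [Field K] [Algebra K ℂ] (H : Type) [AddCommGroup H]
    [Module K H] : H →ₗ[K] ℂ ⊗[K] H := TensorProduct.mk K ℂ H 1

theorem inc_apply (x : H) : inc K H x = (1 : ℂ) ⊗ₜ[K] x := rfl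

/-- A retraction. -/
noncomputable def ret (K : Type) [Field K] [Algebra K ℂ] (H : Type) [AddCommGroup H]
    [Module K H] : ℂ ⊗[K] H →ₗ[K] H :=
  (TensorProduct.lid K H).toLinearMap ∘ₗ
    ((LinearMap.exists_leftInverse_of_injective (Algebra.linearMap K ℂ)
      (LinearMap.ker_eq_bot.mpr (algebraMap K ℂ).injective)).choose).rTensor H

theorem ret_tmul (c : ℂ) : ∃ a : K, ∀ x : H, ret K H (c ⊗ₜ[K] x) = a • x := by
  refine ⟨((LinearMap.exists_leftInverse_of_injective (Algebra.linearMap K ℂ)
      (LinearMap.ker_eq_bot.mpr (algebraMap K ℂ).injective)).choose) c, fun x => ?_⟩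
  rw [ret, LinearMap.comp_apply, LinearMap.rTensor_tmul, LinearEquiv.coe_coe,
    TensorProduct.lid_tmul]

theorem ret_inc (x : H) : ret K H (inc K H x) = x := by
  have h1 := (LinearMap.exists_leftInverse_of_injective (Algebra.linearMap K ℂ)
      (LinearMap.ker_eq_bot.mpr (algebraMap K ℂ).injective)).choose_spec
  have h2 := LinearMap.congr_fun h1 1
  rw [LinearMap.comp_apply, Algebra.linearMap_apply, map_one, LinearMap.id_apply] at h2
  rw [inc_apply, ret, LinearMap.comp_apply, LinearMap.rTensor_tmul, LinearEquiv.coe_coe,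
    TensorProduct.lid_tmul, h2, one_smul]

theorem inc_injective : Function.Injective (inc K H) :=
  Function.LeftInverse.injective ret_inc

theorem ret_baseChange (T : H →ₗ[K] H) (x : ℂ ⊗[K] H) :
    ret K H (T.baseChange ℂ x) = T (ret K H x) := by
  induction x using TensorProduct.induction_on with
  | zero => simp
  | add x y hx hy => rw [map_add, map_add, map_add, map_add, hx, hy]
  | tmul c x =>
    obtain ⟨a, ha⟩ := ret_tmul (K := K) (H := H) c
    rw [LinearMap.baseChange_tmul, ha, ha, map_smul]

theorem inc_baseChange (T : H →ₗ[K] H) (x : H) :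
    T.baseChange ℂ (inc K H x) = inc K H (T x) := by
  rw [inc_apply, LinearMap.baseChange_tmul, inc_apply]

theorem inc_mem {S : Submodule K H} {x : H} (hx : x ∈ S) : inc K H x ∈ S.baseChange ℂ :=
  Submodule.tmul_mem_baseChange_of_mem 1 hx

theorem baseChange_le {S : Submodule K H} {T : Submodule ℂ (ℂ ⊗[K] H)}
    (h : ∀ x ∈ S, inc K H x ∈ T) : S.baseChange ℂ ≤ T := by
  rw [Submodule.baseChange_eq_span]
  apply Submodule.span_le.mpr
  rintro _ ⟨x, hx, rfl⟩
  exact h x hx

theorem ret_mem {S : Submodule K H} {x : ℂ ⊗[K] H} (hx : x ∈ S.baseChange ℂ) :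
    ret K H x ∈ S := by
  let T : Submodule ℂ (ℂ ⊗[K] H) :=
    { carrier := {x | ∀ c : ℂ, ret K H (c • x) ∈ S}
      zero_mem' := by intro c; rw [smul_zero, map_zero]; exact S.zero_mem
      add_mem' := by
        intro a b ha hb c
        rw [smul_add, map_add]
        exact S.add_mem (ha c) (hb c)
      smul_mem' := by
        intro c a ha c'
        rw [smul_smul]
        exact ha _ }
  have h1 : S.baseChange ℂ ≤ T := by
    apply baseChange_le
    intro x hx c
    obtain ⟨a, ha⟩ := ret_tmul (K := K) (H := H) c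
    rw [inc_apply, TensorProduct.smul_tmul', smul_eq_mul, mul_one, ha]
    exact S.smul_mem _ hx
  have h2 := h1 hx 1
  rwa [one_smul] at h2

theorem baseChange_mem {S S' : Submodule K H} {T : H →ₗ[K] H} (h : ∀ x ∈ S, T x ∈ S')
    {x : ℂ ⊗[K] H} (hx : x ∈ S.baseChange ℂ) : T.baseChange ℂ x ∈ S'.baseChange ℂ := by
  have h1 : S.baseChange ℂ ≤ (S'.baseChange ℂ).comap (T.baseChange ℂ) := by
    apply baseChange_le
    intro x hx
    rw [Submodule.mem_comap, inc_baseChange]
    exact inc_mem (h x hx)
  exact h1 hx

theorem baseChange_eq_zero {S : Submodule K H} {T : H →ₗ[K] H} (h : ∀ x ∈ S, T x = 0)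
    {x : ℂ ⊗[K] H} (hx : x ∈ S.baseChange ℂ) : T.baseChange ℂ x = 0 := by
  have h1 : S.baseChange ℂ ≤ LinearMap.ker (T.baseChange ℂ) := by
    apply baseChange_le
    intro x hx
    rw [LinearMap.mem_ker, inc_baseChange, h x hx, map_zero]
  exact h1 hx

theorem mem_of_inc {S : Submodule K H} {x : H} (hx : inc K H x ∈ S.baseChange ℂ) : x ∈ S := by
  have := ret_mem hx
  rwa [ret_inc] at this

theorem internal_baseChange {ι : Type*} [DecidableEq ι] {W : ι → Submodule K H}
    (hW : DirectSum.IsInternal W) :
    DirectSum.IsInternal fun t => (W t).baseChange ℂ := by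
  classical
  rw [DirectSum.isInternal_submodule_iff_iSupIndep_and_iSup_eq_top]
  -- the projections
  let e : (DirectSum ι fun r => W r) ≃ₗ[K] H :=
    LinearEquiv.ofBijective (DirectSum.coeLinearMap W) hW
  have he : ∀ (r : ι) (x : W r), e.symm (x : H) = DirectSum.lof K ι (fun r => W r) r x := by
    intro r x
    rw [LinearEquiv.symm_apply_eq]
    exact (DirectSum.coeLinearMap_lof W r x).symm
  let p : ι → H →ₗ[K] H := fun r =>
    (W r).subtype ∘ₗ DirectSum.component K ι (fun r => W r) r ∘ₗ e.symm.toLinearMap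
  have hp1 : ∀ r, ∀ x ∈ W r, p r x = x := by
    intro r x hx
    have h1 := he r ⟨x, hx⟩
    simp only [p, LinearMap.comp_apply, LinearEquiv.coe_coe] at h1 ⊢
    rw [h1, DirectSum.component.lof_self]
    rfl
  have hp2 : ∀ r t, r ≠ t → ∀ x ∈ W t, p r x = 0 := by
    intro r t hrt x hx
    have h1 := he t ⟨x, hx⟩
    simp only [p, LinearMap.comp_apply, LinearEquiv.coe_coe] at h1 ⊢
    rw [h1, DirectSum.component.of, dif_neg (Ne.symm hrt)]
    rfl
  refine ⟨fun r => ?_, ?_⟩
  · rw [Submodule.disjoint_def]
    intro x hx hx'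
    have h1 : (p r).baseChange ℂ x = x := by
      have h2 : (p r - LinearMap.id).baseChange ℂ x = 0 :=
        baseChange_eq_zero (fun y hy => by
          rw [LinearMap.sub_apply, hp1 r y hy, LinearMap.id_apply, sub_self]) hx
      rwa [LinearMap.baseChange_sub, LinearMap.sub_apply, LinearMap.baseChange_id,
        LinearMap.id_apply, sub_eq_zero] at h2
    have h3 : (⨆ (t : ι) (_ : t ≠ r), (W t).baseChange ℂ) ≤
        LinearMap.ker ((p r).baseChange ℂ) := by
      refine iSup_le fun t => iSup_le fun ht => ?_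
      intro y hy
      exact baseChange_eq_zero (hp2 r t ht.symm) hy
    rw [← h1]
    exact h3 hx'
  · rw [eq_top_iff]
    intro x _
    induction x using TensorProduct.induction_on with
    | zero => exact Submodule.zero_mem _
    | add x y hx hy => exact Submodule.add_mem _ (hx trivial) (hy trivial)
    | tmul c x =>
      have h1 : (c ⊗ₜ[K] x : ℂ ⊗[K] H) = c • inc K H x := by
        rw [inc_apply, TensorProduct.smul_tmul', smul_eq_mul, mul_one]
      rw [h1]
      apply Submodule.smul_mem
      have h2 : (⨆ t, W t) ≤ ((⨆ t, (W t).baseChange ℂ).restrictScalars K).comap (inc K H) := by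
        apply iSup_le
        intro t y hy
        exact le_iSup (fun t => (W t).baseChange ℂ) t (inc_mem hy)
      exact h2 (by rw [hW.submodule_iSup_eq_top]; trivial)

theorem Lef_descend {n : ℕ} {G : ℕ → ℕ → Submodule K H} {e : Module.End K H}
    (hI : DirectSum.IsInternal fun p : ℕ × ℕ => G p.1 p.2)
    (h : Lef n (fun k j => (G k j).baseChange ℂ) (e.baseChange ℂ)) : Lef n G e := by
  have hpow : ∀ (d : ℕ) (x : H), ((e.baseChange ℂ) ^ d) (inc K H x) = inc K H ((e ^ d) x) := by
    intro d
    induction d with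
    | zero => intro x; rfl
    | succ d ih =>
      intro x
      rw [pow_succ', Module.End.mul_apply, ih, inc_baseChange, pow_succ', Module.End.mul_apply]
  have hret : ∀ (d : ℕ) (x : ℂ ⊗[K] H), ret K H (((e.baseChange ℂ) ^ d) x) =
      (e ^ d) (ret K H x) := by
    intro d
    induction d with
    | zero => intro x; rfl
    | succ d ih =>
      intro x
      rw [pow_succ', Module.End.mul_apply, ret_baseChange, ih, pow_succ', Module.End.mul_apply]
  refine ⟨hI, ?_, ?_, ?_, ?_⟩
  · intro k j x hx
    apply mem_of_inc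
    rw [← inc_baseChange]
    exact h.mem k j _ (inc_mem hx)
  · intro k j hkj
    rw [eq_bot_iff]
    intro x hx
    have h1 := inc_mem (K := K) hx
    have h2 := h.high k j hkj
    rw [h2, Submodule.mem_bot] at h1
    exact inc_injective (h1.trans (map_zero _).symm)
  · intro k j d hn x hx hx0
    have h1 := h.inj k j d hn _ (inc_mem hx) (by rw [hpow, hx0, map_zero])
    exact inc_injective (h1.trans (map_zero _).symm)
  · intro k j d hn y hy
    obtain ⟨x, hx, hxy⟩ := h.surj k j d hn _ (inc_mem hy)
    refine ⟨ret K H x, ret_mem hx, ?_⟩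
    rw [← hret, hxy, ret_inc]

theorem Low_baseChange {n : ℕ} {G : ℕ → ℕ → Submodule K H} {e f : Module.End K H}
    (h : Low n G e f) :
    Low n (fun k j => (G k j).baseChange ℂ) (e.baseChange ℂ) (f.baseChange ℂ) := by
  refine ⟨fun k j x hx => baseChange_mem (h.mem k j) hx, fun k j hj x hx =>
    baseChange_eq_zero (h.small k j hj) hx, ?_⟩
  intro k j x hx
  have h1 : (e ∘ₗ f - f ∘ₗ e - ((k : K) + j - n) • LinearMap.id).baseChange ℂ x = 0 := by
    apply baseChange_eq_zero _ hx
    intro y hy
    rw [LinearMap.sub_apply, LinearMap.sub_apply, LinearMap.comp_apply, LinearMap.comp_apply,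
      LinearMap.smul_apply, LinearMap.id_apply, h.comm k j y hy, sub_self]
  rw [LinearMap.baseChange_sub, LinearMap.baseChange_sub, LinearMap.baseChange_comp,
    LinearMap.baseChange_comp, LinearMap.baseChange_smul, LinearMap.baseChange_id] at h1
  simp only [LinearMap.sub_apply, LinearMap.comp_apply, LinearMap.smul_apply,
    LinearMap.id_apply] at h1
  rw [sub_eq_zero] at h1
  have h2 : ((k : K) + j - n) • x = ((k : ℂ) + j - n) • x := by
    rw [← algebraMap_smul ℂ ((k : K) + j - n) x]
    simp
  rw [← h2]
  exact h1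

end general

end Pool.Agent.LibLS20

namespace Pool.Agent.LibX1.Strata

open Pool.Agent.LibLS20 TensorProduct

variable {q : ℕ} {K : Type} [Field K] [Algebra K ℂ] {H : Type} [AddCommGroup H] [Module K H]

/-- Extension of scalars. -/
noncomputable def baseChange (Y : Strata q K H) : Strata q ℂ (ℂ ⊗[K] H) where
  gr k j := (Y.gr k j).baseChange ℂ
  rho := Y.rho.baseChange ℂ
  gamma := Y.gamma.baseChange ℂ
  frob := Y.frob.baseChange ℂ
  internal := internal_baseChange Y.internal
  rho_mem k j x hx := baseChange_mem (Y.rho_mem k j) hx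
  gamma_mem k j x hx := baseChange_mem (Y.gamma_mem k j) hx
  frob_mem k j x hx := baseChange_mem (Y.frob_mem k j) hx
  rho_rho x := by
    induction x using TensorProduct.induction_on with
    | zero => simp
    | add x y hx hy => rw [map_add, map_add, hx, hy, add_zero]
    | tmul c x => simp [Y.rho_rho]
  gamma_gamma x := by
    induction x using TensorProduct.induction_on with
    | zero => simp
    | add x y hx hy => rw [map_add, map_add, hx, hy, add_zero]
    | tmul c x => simp [Y.gamma_gamma]
  anti k j x hx := by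
    have h1 : (Y.rho ∘ₗ Y.gamma + Y.gamma ∘ₗ Y.rho).baseChange ℂ x = 0 :=
      baseChange_eq_zero (fun y hy => Y.anti k j y hy) hx
    rw [LinearMap.baseChange_add, LinearMap.baseChange_comp, LinearMap.baseChange_comp] at h1
    exact h1
  frob_rho x := by
    induction x using TensorProduct.induction_on with
    | zero => simp
    | add x y hx hy => rw [map_add, map_add, hx, hy, map_add, map_add]
    | tmul c x => simp [Y.frob_rho]
  frob_gamma x := by
    induction x using TensorProduct.induction_on with
    | zero => simp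
    | add x y hx hy => rw [map_add, map_add, hx, hy, map_add, map_add, smul_add]
    | tmul c x =>
      rw [LinearMap.baseChange_tmul, LinearMap.baseChange_tmul, LinearMap.baseChange_tmul,
        LinearMap.baseChange_tmul, Y.frob_gamma, TensorProduct.tmul_smul,
        ← algebraMap_smul ℂ (q : K), map_natCast]
  pure k j := by
    obtain ⟨R, hR, hx⟩ := Y.pure k j
    refine ⟨R, hR, ?_⟩
    intro x hx'
    have h1 : Polynomial.aeval (Y.frob.baseChange ℂ) R =
        (Polynomial.aeval Y.frob R).baseChange ℂ :=
      Polynomial.aeval_algHom_apply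
        ((Module.End.baseChangeHom K ℂ H).toRingHom.toIntAlgHom) Y.frob R
    rw [h1]
    exact baseChange_eq_zero hx hx'

end Pool.Agent.LibX1.Strata
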