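import Pool.Agent.LibLS20.Stmt
import Pool.Agent.LibHL85.Prim

/-!
The primitive decomposition, by Hodge types.
-/

namespace Pool.Agent.LibLS20

open Pool.Agent.LibX1 Pool.Agent.LibHL85

section proj

variable {F D : Type*} [Field F] [AddCommGroup D] [Module F D] {ι : Type*}

/-- Projections to the summands of a direct sum. -/
structure Projs (W : ι → Submodule F D) (p : ι → D →ₗ[F] D) : Prop where
  mem : ∀ t x, p t x ∈ W t
  same : ∀ t, ∀ x ∈ W t, p t x = x
  ne : ∀ t t', t ≠ t' → ∀ x ∈ W t', p t x = 0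
  sum : ∀ x, ∃ s : Finset ι, x = ∑ t ∈ s, p t x

theorem exists_projs {W : ι → Submodule F D} [DecidableEq ι] (hW : DirectSum.IsInternal W) :
    ∃ p : ι → D →ₗ[F] D, Projs W p := by
  classical
  let e : (DirectSum ι fun r => W r) ≃ₗ[F] D :=
    LinearEquiv.ofBijective (DirectSum.coeLinearMap W) hW
  have he : ∀ (r : ι) (x : W r), e.symm (x : D) = DirectSum.lof F ι (fun r => W r) r x := by
    intro r x
    rw [LinearEquiv.symm_apply_eq]
    exact (DirectSum.coeLinearMap_lof W r x).symm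
  refine ⟨fun r => (W r).subtype ∘ₗ DirectSum.component F ι (fun r => W r) r ∘ₗ e.symm.toLinearMap,
    ?_, ?_, ?_, ?_⟩
  · intro r x
    exact (DirectSum.component F ι (fun r => W r) r (e.symm x)).2
  · intro r x hx
    have h1 := he r ⟨x, hx⟩
    simp only [LinearMap.comp_apply, LinearEquiv.coe_coe] at h1 ⊢
    rw [h1, DirectSum.component.lof_self]
    rfl
  · intro r t hrt x hx
    have h1 := he t ⟨x, hx⟩
    simp only [LinearMap.comp_apply, LinearEquiv.coe_coe] at h1 ⊢
    rw [h1, DirectSum.component.of, dif_neg (Ne.symm hrt)]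
    rfl
  · intro x
    refine ⟨DFinsupp.support (e.symm x), ?_⟩
    have h1 : e (e.symm x) = x := e.apply_symm_apply x
    conv_lhs => rw [← h1]
    have h2 : e (e.symm x) = DirectSum.coeLinearMap W (e.symm x) := rfl
    rw [h2, DirectSum.coeLinearMap_eq_dfinsuppSum, DFinsupp.sum]
    rfl

theorem Projs.eq_zero {W : ι → Submodule F D} {p : ι → D →ₗ[F] D} (hp : Projs W p) {x : D}
    (h : ∀ t, p t x = 0) : x = 0 := by
  obtain ⟨s, hs⟩ := hp.sum x
  rw [hs]
  exact Finset.sum_eq_zero fun t _ => h t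

theorem Projs.eq_of {W : ι → Submodule F D} {p : ι → D →ₗ[F] D} (hp : Projs W p)
    {D' : Type*} [AddCommGroup D'] [Module F D'] {f g : D →ₗ[F] D'}
    (h : ∀ t, ∀ x ∈ W t, f x = g x) : f = g := by
  apply LinearMap.ext
  intro x
  obtain ⟨s, hs⟩ := hp.sum x
  rw [hs, map_sum, map_sum]
  exact Finset.sum_congr rfl fun t _ => h t _ (hp.mem t x)

end proj

namespace HodgeTheory

variable {q : ℕ} {H : Type} [AddCommGroup H] [Module ℂ H] {Y : Strata q ℂ H}
    {n : ℕ} {conj : H →ₛₗ[starRingEnd ℂ] H} {hpq : ℕ → ℕ → ℕ → Submodule ℂ H}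
    {L : Module.End ℂ H} {I : H →ₗ[ℂ] H →ₗ[ℂ] ℂ}

/-- The Hodge decomposition of `gr k j`. -/
theorem gr_le (h : HodgeTheory Y n conj hpq L I) (k j : ℕ) {S : Submodule ℂ H}
    (hS : ∀ p r, p + r = j → hpq k p r ≤ S) : Y.gr k j ≤ S := by
  intro x hx
  let A : Submodule ℂ H := ⨆ t : ℕ × ℕ × ℕ, ⨆ (_ : t.1 = k ∧ t.2.1 + t.2.2 = j),
    hpq t.1 t.2.1 t.2.2
  let B : Submodule ℂ H := ⨆ t : ℕ × ℕ × ℕ, ⨆ (_ : ¬ (t.1 = k ∧ t.2.1 + t.2.2 = j)),
    hpq t.1 t.2.1 t.2.2
  have hAB : A ⊔ B = ⊤ := by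
    rw [eq_top_iff, ← h.hodge.submodule_iSup_eq_top]
    apply iSup_le
    intro t
    by_cases ht : t.1 = k ∧ t.2.1 + t.2.2 = j
    · exact le_sup_of_le_left (le_iSup_of_le t (le_iSup_of_le ht le_rfl))
    · exact le_sup_of_le_right (le_iSup_of_le t (le_iSup_of_le ht le_rfl))
  have hA : A ≤ Y.gr k j := by
    refine iSup_le fun t => iSup_le fun ht => ?_
    obtain ⟨k', u, v⟩ := t
    obtain ⟨rfl, rfl⟩ := ht
    exact h.hodge_gr _ _ _
  have hAS : A ≤ S := by
    refine iSup_le fun t => iSup_le fun ht => ?_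
    obtain ⟨k', u, v⟩ := t
    obtain ⟨rfl, rfl⟩ := ht
    exact hS _ _ rfl
  have hB : B ≤ ⨆ (s : ℕ × ℕ) (_ : s ≠ (k, j)), Y.gr s.1 s.2 := by
    refine iSup_le fun t => iSup_le fun ht => ?_
    refine le_iSup_of_le (t.1, t.2.1 + t.2.2) (le_iSup_of_le ?_ (h.hodge_gr _ _ _))
    intro he
    exact ht ⟨congrArg Prod.fst he, congrArg Prod.snd he⟩
  obtain ⟨a, ha, b, hb, hab⟩ := Submodule.mem_sup.mp (hAB ▸ (Submodule.mem_top : x ∈ ⊤))
  have hb2 : b ∈ Y.gr k j := by
    have : b = x - a := by rw [← hab]; abel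
    rw [this]
    exact Submodule.sub_mem _ hx (hA ha)
  have hd := Y.internal.submodule_iSupIndep (k, j)
  have hb0 : b = 0 := Submodule.disjoint_def.mp hd b hb2 (hB hb)
  rw [← hab, hb0, add_zero]
  exact hAS ha

/-- The projections to the Hodge types. -/
theorem exists_pr (h : HodgeTheory Y n conj hpq L I) : ∃ p : ℕ × ℕ × ℕ → Module.End ℂ H,
    Projs (fun t : ℕ × ℕ × ℕ => hpq t.1 t.2.1 t.2.2) p := by
  classical
  exact exists_projs h.hodge

theorem pow_type (h : HodgeTheory Y n conj hpq L I) (a : ℕ) {k p r : ℕ} {x : H}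
    (hx : x ∈ hpq k p r) : (L ^ a) x ∈ hpq k (p + a) (r + a) := by
  induction a with
  | zero => simpa using hx
  | succ a ih =>
    rw [pow_succ', Module.End.mul_apply]
    exact h.hodge_L _ _ _ _ ih

theorem pr_pow (h : HodgeTheory Y n conj hpq L I) {p : ℕ × ℕ × ℕ → Module.End ℂ H}
    (hp : Projs (fun t : ℕ × ℕ × ℕ => hpq t.1 t.2.1 t.2.2) p) (a k u v : ℕ) (x : H) :
    p (k, u + a, v + a) ((L ^ a) x) = (L ^ a) (p (k, u, v) x) := by
  have h1 : p (k, u + a, v + a) ∘ₗ (L ^ a) = (L ^ a) ∘ₗ p (k, u, v) := by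
    apply hp.eq_of
    rintro ⟨k', u', v'⟩ y hy
    rw [LinearMap.comp_apply, LinearMap.comp_apply]
    by_cases ht : (k, u, v) = (k', u', v')
    · simp only [Prod.mk.injEq] at ht
      obtain ⟨rfl, rfl, rfl⟩ := ht
      rw [hp.same _ _ hy, hp.same _ _ (h.pow_type a hy)]
    · rw [hp.ne _ _ ht _ hy, map_zero]
      apply hp.ne (k, u + a, v + a) (k', u' + a, v' + a) _ _ (h.pow_type a hy)
      intro he
      apply ht
      simp only [Prod.mk.injEq] at he ⊢
      omega
  exact LinearMap.congr_fun h1 x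

theorem pr_ne (h : HodgeTheory Y n conj hpq L I) {p : ℕ × ℕ × ℕ → Module.End ℂ H}
    (hp : Projs (fun t : ℕ × ℕ × ℕ => hpq t.1 t.2.1 t.2.2) p) {k j : ℕ} {x : H}
    (hx : x ∈ Y.gr k j) {t : ℕ × ℕ × ℕ} (ht : ¬ (t.1 = k ∧ t.2.1 + t.2.2 = j)) : p t x = 0 := by
  have h1 : Y.gr k j ≤ LinearMap.ker (p t) := by
    apply h.gr_le
    intro u v huv y hy
    apply hp.ne t (k, u, v) _ y hy
    rintro rfl
    exact ht ⟨rfl, huv⟩
  exact h1 hx

/-- Hard Lefschetz in terms of degrees. -/
theorem lef (h : HodgeTheory Y n conj hpq L I) : Lef n Y.gr L := by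
  obtain ⟨p, hp⟩ := h.exists_pr
  refine ⟨Y.internal, ?_, ?_, ?_, ?_⟩
  · intro k j
    have : Y.gr k j ≤ (Y.gr k (j + 2)).comap L := by
      apply h.gr_le
      intro u v huv x hx
      have := h.hodge_gr _ _ _ (h.hodge_L _ _ _ _ hx)
      rwa [show u + 1 + (v + 1) = j + 2 by omega] at this
    exact fun x hx => this hx
  · intro k j hkj
    rw [eq_bot_iff]
    apply h.gr_le
    intro u v huv
    rw [h.hodge_dim k u v (by omega)]
  · intro k j a hn x hx hx0
    apply hp.eq_zero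
    rintro ⟨k', u, v⟩
    by_cases ht : k' = k ∧ u + v = j
    · obtain ⟨rfl, rfl⟩ := ht
      apply h.hard_inj k' u v a (by omega) _ (hp.mem (k', u, v) x)
      rw [← h.pr_pow hp, hx0, map_zero]
    · exact h.pr_ne hp hx ht
  · intro k j a hn
    have : Y.gr k (j + 2 * a) ≤ (Y.gr k j).map (L ^ a) := by
      apply h.gr_le
      intro u v huv y hy
      by_cases hu : u < a
      · rw [h.hodge_dim k u v (by omega), Submodule.mem_bot] at hy
        rw [hy]; exact Submodule.zero_mem _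
      by_cases hv : v < a
      · rw [h.hodge_dim k u v (by omega), Submodule.mem_bot] at hy
        rw [hy]; exact Submodule.zero_mem _
      obtain ⟨u, rfl⟩ : ∃ u', u = u' + a := ⟨u - a, by omega⟩
      obtain ⟨v, rfl⟩ : ∃ v', v = v' + a := ⟨v - a, by omega⟩
      obtain ⟨x, hx, rfl⟩ := h.hard_surj k u v a (by omega) y hy
      refine ⟨x, ?_, rfl⟩
      have := h.hodge_gr _ _ _ hx
      rwa [show u + v = j by omega] at this
    intro y hy
    obtain ⟨x, hx, hxy⟩ := this hy
    exact ⟨x, hx, hxy⟩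

theorem exists_lam (h : HodgeTheory Y n conj hpq L I) : ∃ Λ, Low n Y.gr L Λ := h.lef.exists_low

/-- The primitive decomposition, by types. -/
theorem span (h : HodgeTheory Y n conj hpq L I) {S : Submodule ℂ H}
    (hS : ∀ k p r a, k + p + r + a = n → ∀ x ∈ hpq k p r, (L ^ (a + 1)) x = 0 →
      ∀ i, (L ^ i) x ∈ S) (x : H) : x ∈ S := by
  obtain ⟨p, hp⟩ := h.exists_pr
  apply h.lef.span
  intro k j a hn x hx hx0 i
  obtain ⟨s, hs⟩ := hp.sum x
  rw [hs, map_sum]
  apply Submodule.sum_mem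
  rintro ⟨k', u, v⟩ _
  by_cases ht : k' = k ∧ u + v = j
  · obtain ⟨rfl, rfl⟩ := ht
    apply hS k' u v a (by omega) _ (hp.mem (k', u, v) x)
    rw [← h.pr_pow hp, hx0, map_zero]
  · rw [h.pr_ne hp hx ht, map_zero]
    exact Submodule.zero_mem _

section lam

variable {Λ : Module.End ℂ H}

/-- `Λ` preserves the differences of Hodge types. -/
theorem lam_type (h : HodgeTheory Y n conj hpq L I) (hL : Low n Y.gr L Λ) {k u v : ℕ} {x : H}
    (hx : x ∈ hpq k u v) :
    Λ x = 0 ∨ ∃ u' v', u = u' + 1 ∧ v = v' + 1 ∧ Λ x ∈ hpq k u' v' := by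
  classical
  obtain ⟨p, hp⟩ := h.exists_pr
  -- the projection to the classes with the same difference
  let c : ℕ × ℕ × ℕ → Prop := fun t => t.2.1 + v = t.2.2 + u
  obtain ⟨E, hE⟩ : ∃ E : Module.End ℂ H, ∀ t : ℕ × ℕ × ℕ, ∀ x ∈ hpq t.1 t.2.1 t.2.2,
      E x = if c t then x else 0 := by
    let e : (DirectSum (ℕ × ℕ × ℕ) fun t => hpq t.1 t.2.1 t.2.2) ≃ₗ[ℂ] H :=
      LinearEquiv.ofBijective (DirectSum.coeLinearMap fun t : ℕ × ℕ × ℕ => hpq t.1 t.2.1 t.2.2)
        h.hodge
    refine ⟨(DirectSum.toModule ℂ (ℕ × ℕ × ℕ) H fun t =>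
      if c t then (hpq t.1 t.2.1 t.2.2).subtype else 0) ∘ₗ e.symm.toLinearMap, ?_⟩
    intro t x hx
    have h1 : e.symm x = DirectSum.lof ℂ (ℕ × ℕ × ℕ) (fun t => hpq t.1 t.2.1 t.2.2) t ⟨x, hx⟩ := by
      rw [LinearEquiv.symm_apply_eq]
      exact (DirectSum.coeLinearMap_lof (fun t : ℕ × ℕ × ℕ => hpq t.1 t.2.1 t.2.2) t
        ⟨x, hx⟩).symm
    rw [LinearMap.comp_apply, LinearEquiv.coe_coe, h1, DirectSum.toModule_lof]
    split_ifs <;> rfl
  have hE1 : ∀ t : ℕ × ℕ × ℕ, c t → ∀ x ∈ hpq t.1 t.2.1 t.2.2, E x = x := by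
    intro t ht x hx; rw [hE t x hx, if_pos ht]
  have hE0 : ∀ t : ℕ × ℕ × ℕ, ¬ c t → ∀ x ∈ hpq t.1 t.2.1 t.2.2, E x = 0 := by
    intro t ht x hx; rw [hE t x hx, if_neg ht]
  have hEL : L * E = E * L := by
    apply hp.eq_of
    rintro ⟨k', u', v'⟩ y hy
    rw [Module.End.mul_apply, Module.End.mul_apply]
    have hLy := h.hodge_L _ _ _ _ hy
    by_cases ht : c (k', u', v')
    · rw [hE1 _ ht _ hy, hE1 (k', u' + 1, v' + 1) (by simp only [c] at ht ⊢; omega) _ hLy]
    · rw [hE0 _ ht _ hy, hE0 (k', u' + 1, v' + 1) (by simp only [c] at ht ⊢; omega) _ hLy,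
        map_zero]
  have hEgr : ∀ k j, ∀ y ∈ Y.gr k j, E y ∈ Y.gr k j := by
    intro k j
    have : Y.gr k j ≤ (Y.gr k j).comap E := by
      apply h.gr_le
      intro u' v' huv y hy
      rw [Submodule.mem_comap]
      have h1 := h.hodge_gr _ _ _ hy
      rw [huv] at h1
      by_cases ht : c (k, u', v')
      · rw [hE1 _ ht _ hy]; exact h1
      · rw [hE0 _ ht _ hy]; exact Submodule.zero_mem _
    exact fun y hy => this hy
  have hcomm : Λ * E - E * Λ = 0 := by
    apply h.lef.eq_zero_of_neg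
    · apply ext_glue Y.internal
      intro k j y hy
      have h1 := hL.comm k j y hy
      have h2 := hL.comm k j _ (hEgr k j y hy)
      have h3 : ∀ z, L (E z) = E (L z) := fun z => LinearMap.congr_fun hEL z
      have h4 := congrArg E h1
      rw [map_sub, map_smul, ← h2] at h4
      simp only [Module.End.mul_apply, LinearMap.sub_apply, map_sub, h3]
      rw [h3] at h4
      have h5 : L (Λ (E y)) = E (L (Λ y)) - E (Λ (L y)) + Λ (E (L y)) := by
        rw [h4]; abel
      rw [h5]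
      abel
    · intro k j d hn y hy
      rcases Nat.lt_or_ge j 2 with hj | hj
      · left
        rw [LinearMap.sub_apply, Module.End.mul_apply, Module.End.mul_apply,
          hL.small _ _ hj _ hy, hL.small _ _ hj _ (hEgr _ _ _ hy), map_zero, sub_zero]
      · right
        obtain ⟨i, rfl⟩ : ∃ i, j = i + 2 := ⟨j - 2, by omega⟩
        refine ⟨k, i, d + 2, by omega, by omega, ?_⟩
        rw [LinearMap.sub_apply, Module.End.mul_apply, Module.End.mul_apply]
        exact Submodule.sub_mem _ (hL.mem _ _ _ (hEgr _ _ _ hy)) (hEgr _ _ _ (hL.mem _ _ _ hy))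
  have hEx : E x = x := hE1 (k, u, v) (by simp only [c]; omega) x hx
  have h1 : E (Λ x) = Λ x := by
    have h2 := LinearMap.congr_fun (sub_eq_zero.mp hcomm) x
    rw [Module.End.mul_apply, Module.End.mul_apply, hEx] at h2
    exact h2.symm
  have hgr := h.hodge_gr _ _ _ hx
  -- the components of `Λ x`
  by_cases hj : u + v < 2
  · left
    exact hL.small _ _ hj _ hgr
  · obtain ⟨i, hi⟩ : ∃ i, u + v = i + 2 := ⟨u + v - 2, by omega⟩
    rw [hi] at hgr
    have hΛ := hL.mem _ _ _ hgr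
    have hcomp : ∀ t : ℕ × ℕ × ℕ, ¬ (t.1 = k ∧ t.2.1 + 1 = u ∧ t.2.2 + 1 = v) →
        p t (Λ x) = 0 := by
      intro t ht
      by_cases ht2 : t.1 = k ∧ t.2.1 + t.2.2 = i
      · have hc : ¬ c t := by simp only [c]; omega
        have h3 : p t ∘ₗ E = 0 := by
          apply hp.eq_of
          intro t' y hy
          rw [LinearMap.comp_apply, LinearMap.zero_apply]
          by_cases ht' : c t'
          · rw [hE1 _ ht' _ hy]
            apply hp.ne t t' _ _ hy
            rintro rfl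
            exact hc ht'
          · rw [hE0 _ ht' _ hy, map_zero]
        rw [← h1]
        exact LinearMap.congr_fun h3 _
      · exact h.pr_ne hp hΛ ht2
    by_cases huv : 1 ≤ u ∧ 1 ≤ v
    · right
      refine ⟨u - 1, v - 1, by omega, by omega, ?_⟩
      have h4 : Λ x = p (k, u - 1, v - 1) (Λ x) := by
        obtain ⟨s, hs⟩ := hp.sum (Λ x)
        conv_lhs => rw [hs]
        by_cases hm : (k, u - 1, v - 1) ∈ s
        · rw [Finset.sum_eq_single (k, u - 1, v - 1)]
          · rintro ⟨k', u', v'⟩ _ hne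
            apply hcomp
            rintro ⟨h5, h6, h7⟩
            apply hne
            simp only [Prod.mk.injEq]
            simp only at h5 h6 h7
            omega
          · intro hm'; exact absurd hm hm'
        · have h5 : Λ x = 0 := by
            rw [hs]
            apply Finset.sum_eq_zero
            rintro ⟨k', u', v'⟩ hm'
            apply hcomp
            rintro ⟨h5, h6, h7⟩
            simp only at h5 h6 h7
            apply hm
            rw [show (k, u - 1, v - 1) = (k', u', v') by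
              simp only [Prod.mk.injEq]; omega]
            exact hm'
          rw [← hs, h5, map_zero]
      rw [h4]
      exact hp.mem (k, u - 1, v - 1) _
    · left
      apply hp.eq_zero
      intro t
      apply hcomp
      omega

/-- `Λ` is real. -/
theorem lam_conj (h : HodgeTheory Y n conj hpq L I) (hL : Low n Y.gr L Λ) (x : H) :
    Λ (conj x) = conj (Λ x) := by
  let T : Module.End ℂ H :=
    { toFun := fun x => conj (Λ (conj x))
      map_add' := fun x y => by rw [map_add, map_add, map_add]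
      map_smul' := fun c x => by
        rw [map_smulₛₗ, map_smul, map_smulₛₗ, starRingEnd_self_apply, RingHom.id_apply] }
  have hT : ∀ x, T x = conj (Λ (conj x)) := fun x => rfl
  have hcgr : ∀ k j, ∀ y ∈ Y.gr k j, conj y ∈ Y.gr k j := by
    intro k j
    have h1 : Y.gr k j ≤ Submodule.comap conj (Y.gr k j) := by
      apply h.gr_le
      intro u v huv y hy
      rw [Submodule.mem_comap]
      have := h.hodge_gr _ _ _ (h.hodge_conj _ _ _ _ hy)
      rwa [show v + u = j by omega] at this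
    exact fun y hy => h1 hy
  have h0 : Λ - T = 0 := by
    apply h.lef.eq_zero_of_neg
    · apply ext_glue Y.internal
      intro k j y hy
      have h1 := hL.comm k j y hy
      have h2 := congrArg conj (hL.comm k j _ (hcgr k j y hy))
      rw [map_sub, map_smulₛₗ, h.conj_conj, h.conj_L (Λ (conj y)), ← h.conj_L y] at h2
      have h3 : (starRingEnd ℂ) ((k : ℂ) + j - n) = (k : ℂ) + j - n := by
        simp
      rw [h3, ← h1] at h2
      rw [Module.End.mul_apply, Module.End.mul_apply, LinearMap.sub_apply, LinearMap.sub_apply,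
        map_sub, hT, hT]
      have h4 : L (conj (Λ (conj y))) = L (Λ y) - Λ (L y) + conj (Λ (conj (L y))) := by
        rw [← h2]; abel
      rw [h4]
      abel
    · intro k j d hn y hy
      rcases Nat.lt_or_ge j 2 with hj | hj
      · left
        rw [LinearMap.sub_apply, hT, hL.small _ _ hj _ hy, hL.small _ _ hj _ (hcgr _ _ _ hy),
          map_zero, sub_zero]
      · right
        obtain ⟨i, rfl⟩ : ∃ i, j = i + 2 := ⟨j - 2, by omega⟩
        refine ⟨k, i, d + 2, by omega, by omega, ?_⟩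
        rw [LinearMap.sub_apply, hT]
        exact Submodule.sub_mem _ (hL.mem _ _ _ hy) (hcgr _ _ _ (hL.mem _ _ _ (hcgr _ _ _ hy)))
  have h1 : Λ (conj x) = T (conj x) := by rw [sub_eq_zero.mp h0]
  rw [h1, hT, h.conj_conj]

theorem comm_rho (h : HodgeTheory Y n conj hpq L I) (hL : Low n Y.gr L Λ) :
    Λ * (Λ * Y.rho - Y.rho * Λ) = (Λ * Y.rho - Y.rho * Λ) * Λ := by
  apply hL.comm_comm h.lef
  · ext x; exact (h.L_rho x).symm
  · exact Or.inl Y.rho_mem

theorem comm_gamma (h : HodgeTheory Y n conj hpq L I) (hL : Low n Y.gr L Λ) :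
    Λ * (Λ * Y.gamma - Y.gamma * Λ) = (Λ * Y.gamma - Y.gamma * Λ) * Λ := by
  apply hL.comm_comm h.lef
  · ext x; exact (h.L_gamma x).symm
  · exact Or.inr ⟨Y.gamma_mem, h.gamma_zero⟩

/-- `Λ` is self-adjoint for the intersection form. -/
theorem I_lam (h : HodgeTheory Y n conj hpq L I) (hL : Low n Y.gr L Λ) (x y : H) :
    I (Λ x) y = I x (Λ y) := by
  apply hL.adjoint h.lef I h.I_L
  intro k j k' j' x hx y hy hxy
  by_contra hcon
  apply hxy
  have h1 : Y.gr k j ≤ LinearMap.ker (I.flip y) := by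
    apply h.gr_le
    intro u v huv x hx
    rw [LinearMap.mem_ker, LinearMap.flip_apply, ← LinearMap.mem_ker]
    have h2 : Y.gr k' j' ≤ LinearMap.ker (I x) := by
      apply h.gr_le
      intro u' v' huv' y hy
      rw [LinearMap.mem_ker]
      by_contra h3
      obtain ⟨h4, h5, h6⟩ := h.I_type _ _ _ _ _ _ x hx y hy h3
      exact hcon ⟨h4, by omega⟩
    exact h2 hy
  exact h1 hx

end lam

end HodgeTheory

end Pool.Agent.LibLS20
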