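import Pool.Agent.LibLS20.Main
import Pool.Agent.LibLS20.Lef85

/-!
Consequences of the Hodge theory of the strata.
-/

namespace Pool.Agent.LibLS20

open Finset Pool.Agent.LibX1 Pool.Agent.LibHL85

namespace HodgeTheory

variable {q : ℕ} {H : Type} [AddCommGroup H] [Module ℂ H] {Y : Strata q ℂ H}
    {n : ℕ} {conj : H →ₛₗ[starRingEnd ℂ] H} {hpq : ℕ → ℕ → ℕ → Submodule ℂ H}
    {L Λ : Module.End ℂ H} {I : H →ₗ[ℂ] H →ₗ[ℂ] ℂ}

theorem lam (h : HodgeTheory Y n conj hpq L I) (hL : Low n Y.gr L Λ) : Lam Y n conj hpq L Λ I where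
  lef := h.lef
  low := hL
  conj_lam := fun x => (h.lam_conj hL x).symm
  lam_hodge := by
    intro k p r x hx
    rcases h.lam_type hL hx with h1 | ⟨u, v, h1, h2, h3⟩
    · rw [h1]
      exact Submodule.zero_mem _
    · obtain rfl : u = p := by omega
      obtain rfl : v = r := by omega
      exact h3
  lam_zero := by
    intro k p r hpr x hx
    rcases h.lam_type hL hx with h1 | ⟨u, v, h1, h2, -⟩
    · exact h1
    · omega
  I_lam := h.I_lam hL
  cc_rho := h.comm_rho hL
  cc_gamma := h.comm_gamma hL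

/-- The intersection form is nondegenerate. -/
theorem I_ne (h : HodgeTheory Y n conj hpq L I) (x : H) (hx : x ≠ 0) : ∃ y, I x y ≠ 0 := by
  obtain ⟨Λ, hL⟩ := h.exists_lam
  have hl := h.lam hL
  obtain ⟨C, hC⟩ := exists_tor h Complex.I
  classical
  obtain ⟨p, hp⟩ := exists_projs Y.internal
  obtain ⟨t, ht⟩ : ∃ t, p t x ≠ 0 := by
    by_contra hcon
    push Not at hcon
    exact hx (hp.eq_zero hcon)
  -- the component of degree `t`
  by_contra hcon
  push Not at hcon
  have hCinv : ∀ y, ∃ z, C z = y := by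
    obtain ⟨C', hC'⟩ := exists_tor h (Complex.I)⁻¹
    intro y
    refine ⟨C' y, ?_⟩
    have h1 : C ∘ₗ C' = LinearMap.id := by
      apply ext_glue' h.hodge
      rintro ⟨k, u, v⟩ z hz
      rw [LinearMap.comp_apply, hC' k u v z hz, map_smul, hC k u v z hz, smul_smul, inv_zpow,
        inv_mul_cancel₀ (zpow_ne_zero _ Complex.I_ne_zero), one_smul, LinearMap.id_apply]
    exact LinearMap.congr_fun h1 y
  have h1 := pos_gr h hl hC (hp.mem t x)
  have h2 : I (C (p t x)) (wop n L Λ (conj (p t x))) = 0 := by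
    -- move `C` to the other side
    obtain ⟨z, hz⟩ := hCinv (wop n L Λ (conj (p t x)))
    rw [← hz, hC.inv h Complex.I_ne_zero]
    -- the form is homogeneous
    have hzt : ∀ k' j', (t.1 ≠ k' ∨ t.2 + j' + 2 * t.1 ≠ 2 * n) → I (p t x) (p (k', j') z) = 0 := by
      intro k' j' hne
      have : Y.gr t.1 t.2 ≤ LinearMap.ker (I.flip (p (k', j') z)) := by
        apply h.gr_le
        intro u v huv x' hx'
        rw [LinearMap.mem_ker, LinearMap.flip_apply, ← LinearMap.mem_ker]
        have h5 : Y.gr k' j' ≤ LinearMap.ker (I x') := by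
          apply h.gr_le
          intro u' v' huv' y hy
          rw [LinearMap.mem_ker]
          by_contra h3
          obtain ⟨h4, h5, h6⟩ := h.I_type _ _ _ _ _ _ x' hx' y hy h3
          omega
        exact h5 (hp.mem (k', j') z)
      exact this (hp.mem t x)
    have hzt' : ∀ t' : ℕ × ℕ, t' ≠ t → ∀ k' j', t.1 = k' → t.2 + j' + 2 * t.1 = 2 * n →
        I (p t' x) (p (k', j') z) = 0 := by
      intro t' hne k' j' hk hj
      have : Y.gr t'.1 t'.2 ≤ LinearMap.ker (I.flip (p (k', j') z)) := by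
        apply h.gr_le
        intro u v huv x' hx'
        rw [LinearMap.mem_ker, LinearMap.flip_apply, ← LinearMap.mem_ker]
        have h5 : Y.gr k' j' ≤ LinearMap.ker (I x') := by
          apply h.gr_le
          intro u' v' huv' y hy
          rw [LinearMap.mem_ker]
          by_contra h3
          obtain ⟨h4, h5, h6⟩ := h.I_type _ _ _ _ _ _ x' hx' y hy h3
          apply hne
          ext <;> omega
        exact h5 (hp.mem (k', j') z)
      exact this (hp.mem t' x)
    obtain ⟨s, hs⟩ := hp.sum z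
    rw [hs, map_sum]
    refine Finset.sum_eq_zero ?_
    rintro ⟨k', j'⟩ _
    by_cases hc : t.1 ≠ k' ∨ t.2 + j' + 2 * t.1 ≠ 2 * n
    · exact hzt k' j' hc
    · push Not at hc
      have h6 := hcon (p (k', j') z)
      obtain ⟨s', hs'⟩ := hp.sum x
      by_cases hts : t ∈ s'
      · rw [hs', map_sum, LinearMap.sum_apply, Finset.sum_eq_single t] at h6
        · exact h6
        · intro t' _ hne
          exact hzt' t' hne k' j' hc.1 hc.2
        · intro h7
          exact absurd hts h7
      · exfalso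
        apply ht
        rw [hs', map_sum]
        apply Finset.sum_eq_zero
        intro t'' ht''
        apply hp.ne t t'' _ _ (hp.mem t'' x)
        rintro rfl
        exact hts ht''
  rw [h2, mul_zero] at h1
  exact ht (h1.eq_zero rfl)

/-- **The Laplacian argument applies in all degrees and weights.** -/
theorem laplace (h : HodgeTheory Y n conj hpq L I) (hL : Low n Y.gr L Λ) {d s : ℕ} (hs : 1 ≤ s)
    (w : ℕ → H) (hw : w ∈ Y.wt d (-s + 1)) (h0 : Y.d (Y.S (-Λ) (-s) (Y.d w)) = 0) :
    Y.d w = 0 := by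
  rcases Nat.lt_or_ge (d + 1) s with hlt | hle
  · have hdw : Y.d w ∈ Y.wt (d + 1) (-s) := by
      have := Y.d_wt d (-s + 1) hw
      rwa [add_sub_cancel_right] at this
    have h1 : Y.wt (d + 1) (-s) ≤ ⊥ := Y.wt_le fun i k j h1 h2 h3 => by omega
    simpa using h1 hdw
  · exact pos_cochain h (h.lam hL) hs hle w hw h0

/-- `N ^ s` is injective on the part of weight `m + s`. -/
theorem inj [FiniteDimensional ℂ H] (h : HodgeTheory Y n conj hpq L I)
    (hq : 1 < q) {m : ℕ} {V : Type} [AddCommGroup V] [Module ℂ V]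
    {cl : (ℕ → H) →ₗ[ℂ] V} {N F : Module.End ℂ V} (hV : Y.Coh m cl N F) {s : ℕ}
    (x : V) (hx : x ∈ Y.W m cl s) (h0 : (N ^ s) x = 0) : x = 0 := by
  obtain ⟨Λ, hL⟩ := h.exists_lam
  exact inj_of_hodge h (h.lam hL) hq hV x hx h0

end HodgeTheory

end Pool.Agent.LibLS20
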