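import Pool.Agent.LibLS20.Pos

/-!
The Hermitian form on `gr k j` and the adjoints of `rho` and `gamma`.
-/

namespace Pool.Agent.LibLS20

open Finset Pool.Agent.LibX1 Pool.Agent.LibHL85

variable {q : ℕ} {H : Type} [AddCommGroup H] [Module ℂ H] {Y : Strata q ℂ H}
    {n : ℕ} {conj : H →ₛₗ[starRingEnd ℂ] H} {hpq : ℕ → ℕ → ℕ → Submodule ℂ H}
    {L Λ : Module.End ℂ H} {I : H →ₗ[ℂ] H →ₗ[ℂ] ℂ}

/-- `C` acts on the classes of type `(p, r)` by `l ^ (p - r)`. -/
def Tor (hpq : ℕ → ℕ → ℕ → Submodule ℂ H) (l : ℂ) (C : Module.End ℂ H) : Prop :=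
  ∀ k p r, ∀ x ∈ hpq k p r, C x = l ^ ((p : ℤ) - r) • x

theorem exists_tor (h : HodgeTheory Y n conj hpq L I) (l : ℂ) : ∃ C, Tor hpq l C := by
  obtain ⟨C, hC⟩ := exists_glue' h.hodge
    (fun t : ℕ × ℕ × ℕ => (l ^ ((t.2.1 : ℤ) - t.2.2)) • (LinearMap.id : H →ₗ[ℂ] H))
  exact ⟨C, fun k p r x hx => hC (k, p, r) x hx⟩

section tor
variable {l : ℂ} {C : Module.End ℂ H}

theorem Tor.comm_L (h : HodgeTheory Y n conj hpq L I) (hC : Tor hpq l C) (x : H) :
    C (L x) = L (C x) := by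
  have : C ∘ₗ L = L ∘ₗ C := by
    apply ext_glue' h.hodge
    rintro ⟨k, p, r⟩ x hx
    rw [LinearMap.comp_apply, LinearMap.comp_apply, hC k p r x hx,
      hC k (p + 1) (r + 1) _ (h.hodge_L k p r x hx), map_smul]
    congr 2
    push_cast
    ring
  exact LinearMap.congr_fun this x

theorem Tor.comm_lam (h : HodgeTheory Y n conj hpq L I) (hl : Lam Y n conj hpq L Λ I)
    (hC : Tor hpq l C) (x : H) : C (Λ x) = Λ (C x) := by
  have : C ∘ₗ Λ = Λ ∘ₗ C := by
    apply ext_glue' h.hodge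
    rintro ⟨k, p, r⟩ x hx
    rw [LinearMap.comp_apply, LinearMap.comp_apply, hC k p r x hx, map_smul]
    by_cases hpr : p = 0 ∨ r = 0
    · rw [hl.lam_zero k p r hpr x hx, map_zero, smul_zero]
    · rw [not_or] at hpr
      obtain ⟨p', rfl⟩ : ∃ p', p = p' + 1 := ⟨p - 1, by omega⟩
      obtain ⟨r', rfl⟩ : ∃ r', r = r' + 1 := ⟨r - 1, by omega⟩
      rw [hC k p' r' _ (hl.lam_hodge k p' r' x hx)]
      congr 2
      push_cast
      ring
  exact LinearMap.congr_fun this x

theorem Tor.comm_rho (h : HodgeTheory Y n conj hpq L I) (hC : Tor hpq l C) (x : H) :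
    C (Y.rho x) = Y.rho (C x) := by
  have : C ∘ₗ Y.rho = Y.rho ∘ₗ C := by
    apply ext_glue' h.hodge
    rintro ⟨k, p, r⟩ x hx
    rw [LinearMap.comp_apply, LinearMap.comp_apply, hC k p r x hx,
      hC (k + 1) p r _ (h.hodge_rho k p r x hx), map_smul]
  exact LinearMap.congr_fun this x

theorem Tor.comm_gamma (h : HodgeTheory Y n conj hpq L I) (hC : Tor hpq l C) (x : H) :
    C (Y.gamma x) = Y.gamma (C x) := by
  have : C ∘ₗ Y.gamma = Y.gamma ∘ₗ C := by
    apply ext_glue' h.hodge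
    rintro ⟨k, p, r⟩ x hx
    rw [LinearMap.comp_apply, LinearMap.comp_apply, hC k p r x hx, map_smul]
    rcases k with _ | k
    · rw [h.gamma_zero _ x (h.hodge_gr 0 p r hx), map_zero, smul_zero]
    · rw [hC k (p + 1) (r + 1) _ (h.hodge_gamma k p r x hx)]
      congr 2
      push_cast
      ring
  exact LinearMap.congr_fun this x

/-- Invariance of the intersection form. -/
theorem Tor.inv (h : HodgeTheory Y n conj hpq L I) (hC : Tor hpq l C) (hl0 : l ≠ 0) (x y : H) :
    I (C x) (C y) = I x y := by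
  have : I.compl₁₂ C C = I := by
    apply ext_glue' h.hodge
    rintro ⟨k, p, r⟩ x hx
    apply ext_glue' h.hodge
    rintro ⟨k', p', r'⟩ y hy
    rw [LinearMap.compl₁₂_apply, hC k p r x hx, hC k' p' r' y hy, map_smul, map_smul,
      LinearMap.smul_apply, smul_eq_mul, smul_eq_mul, ← mul_assoc, ← zpow_add₀ hl0]
    by_cases h0 : I x y = 0
    · rw [h0, mul_zero]
    · obtain ⟨-, h1, h2⟩ := h.I_type k p r k' p' r' x hx y hy h0
      have : (p' : ℤ) - r' + ((p : ℤ) - r) = 0 := by omega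
      rw [this, zpow_zero, one_mul]
  exact LinearMap.congr_fun₂ this x y

end tor

/-- Classes of different types in the same degree are orthogonal. -/
theorem orth_type (h : HodgeTheory Y n conj hpq L I) (hl : Lam Y n conj hpq L Λ I)
    {k p r k' p' r' : ℕ} {x y : H} (hx : x ∈ hpq k p r) (hy : y ∈ hpq k' p' r')
    (hne : (p : ℤ) - r ≠ p' - r') : I x (wop n L Λ (conj y)) = 0 := by
  obtain ⟨D, hD⟩ := exists_tor h 2
  have h1 := hD.inv h two_ne_zero x (wop n L Λ (conj y))
  rw [wop_comm (hD.comm_L h) (hD.comm_lam h hl), hD k p r x hx,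
    hD k' r' p' _ (h.hodge_conj k' p' r' y hy), map_smul, map_smul, map_smul,
    LinearMap.smul_apply, smul_eq_mul, smul_eq_mul, ← mul_assoc,
    ← zpow_add₀ (two_ne_zero : (2 : ℂ) ≠ 0)] at h1
  by_contra h0
  have h2 : (2 : ℂ) ^ ((r' : ℤ) - p' + ((p : ℤ) - r)) = 1 := by
    have h3 := mul_right_cancel₀ h0 (h1.trans (one_mul _).symm)
    exact h3
  have h4 : ((2 : ℝ) ^ ((r' : ℤ) - p' + ((p : ℤ) - r))) = 1 := by
    have h6 := congrArg Complex.re h2
    rw [← Complex.ofReal_ofNat, ← Complex.ofReal_zpow, Complex.ofReal_re, Complex.one_re] at h6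
    exact h6
  have h5 : (r' : ℤ) - p' + ((p : ℤ) - r) = 0 := by
    rcases lt_trichotomy ((r' : ℤ) - p' + ((p : ℤ) - r)) 0 with h6 | h6 | h6
    · exact absurd h4 (zpow_lt_one_of_neg₀ (by norm_num) h6).ne
    · exact h6
    · exact absurd h4 (one_lt_zpow₀ (by norm_num) h6).ne'
  omega

/-- The classes of degree `j` are sums of classes of type `(p, j - p)`. -/
theorem gr_sum (h : HodgeTheory Y n conj hpq L I) {k j : ℕ} {y : H} (hy : y ∈ Y.gr k j) :
    ∃ z : ℕ → H, (∀ p ≤ j, z p ∈ hpq k p (j - p)) ∧ y = ∑ p ∈ range (j + 1), z p := by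
  obtain ⟨π, hπ⟩ := exists_glue Y.internal
    (fun k' j' => if k' = k ∧ j' = j then (LinearMap.id : H →ₗ[ℂ] H) else 0)
  let S : Submodule ℂ H := ⨆ p ∈ range (j + 1), hpq k p (j - p)
  have h1 : ∀ x, π x ∈ S := by
    intro x
    have h2 : x ∈ S.comap π := by
      refine top_glue' h.hodge ?_ x
      rintro ⟨k', p', r'⟩ u hu
      rw [Submodule.mem_comap, hπ k' (p' + r') u (h.hodge_gr _ _ _ hu)]
      split_ifs with hc
      · obtain ⟨rfl, hj⟩ := hc
        have hr : r' = j - p' := by omega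
        rw [LinearMap.id_apply]
        have h3 : hpq k' p' (j - p') ≤ S :=
          le_iSup₂_of_le (f := fun p (_ : p ∈ range (j + 1)) => hpq k' p (j - p)) p'
            (mem_range.mpr (by omega)) le_rfl
        exact h3 (hr ▸ hu)
      · rw [LinearMap.zero_apply]
        exact Submodule.zero_mem _
    exact h2
  have h4 : y ∈ S := by
    have h5 := h1 y
    rw [hπ k j y hy, if_pos ⟨rfl, rfl⟩, LinearMap.id_apply] at h5
    exact h5
  obtain ⟨μ, hμ⟩ := (Submodule.mem_iSup_finset_iff_exists_sum _ y).mp h4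
  exact ⟨fun p => μ p, fun p _ => (μ p).2, hμ.symm⟩

/-- **Positivity on `gr k j`.** -/
theorem pos_gr (h : HodgeTheory Y n conj hpq L I) (hl : Lam Y n conj hpq L Λ I)
    {C : Module.End ℂ H} (hC : Tor hpq Complex.I C) {k j : ℕ} {y : H} (hy : y ∈ Y.gr k j) :
    NN (eps j * I (C y) (wop n L Λ (conj y))) (y = 0) := by
  obtain ⟨z, hz, rfl⟩ := gr_sum h hy
  have h1 : eps j * I (C (∑ p ∈ range (j + 1), z p)) (wop n L Λ (conj (∑ p ∈ range (j + 1), z p)))
      = ∑ p ∈ range (j + 1), Complex.I ^ ((p : ℤ) - (j - p : ℕ)) * eps (p + (j - p)) *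
        I (z p) (wop n L Λ (conj (z p))) := by
    rw [map_sum, map_sum, map_sum, map_sum, map_sum, Finset.mul_sum]
    refine Finset.sum_congr rfl fun p hp => ?_
    have hp' := mem_range.mp hp
    rw [LinearMap.sum_apply, Finset.sum_eq_single p]
    · rw [hC k p (j - p) _ (hz p (by omega)), map_smul, LinearMap.smul_apply, smul_eq_mul,
        show p + (j - p) = j by omega]
      ring
    · intro p' hp1 hne
      have hp1' := mem_range.mp hp1
      rw [hC k p' (j - p') _ (hz p' (by omega)), map_smul, LinearMap.smul_apply,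
        orth_type h hl (hz p' (by omega)) (hz p (by omega)) (by omega), smul_zero]
    · intro h2
      exact absurd hp h2
  rw [h1]
  refine (NN.sum (P := fun p => z p = 0) _ fun p hp => ?_).imp ?_
  · exact pos_hpq h hl (hz p (by have := mem_range.mp hp; omega))
  · intro h2
    exact Finset.sum_eq_zero h2

end Pool.Agent.LibLS20
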