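import Pool.Agent.LibLS20.Herm

/-!
The adjoints of `rho` and `gamma` and the positivity of the Laplacian.
-/

namespace Pool.Agent.LibLS20

open Finset Pool.Agent.LibX1 Pool.Agent.LibHL85

variable {q : ℕ} {H : Type} [AddCommGroup H] [Module ℂ H] {Y : Strata q ℂ H}
    {n : ℕ} {conj : H →ₛₗ[starRingEnd ℂ] H} {hpq : ℕ → ℕ → ℕ → Submodule ℂ H}
    {L Λ : Module.End ℂ H} {I : H →ₗ[ℂ] H →ₗ[ℂ] ℂ}

theorem I_rho (h : HodgeTheory Y n conj hpq L I) (x y : H) :
    I (Y.rho x) y = I x (Y.gamma y) := by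
  have : I ∘ₗ Y.rho = I.compl₂ Y.gamma := by
    apply ext_glue Y.internal
    intro k j x hx
    apply ext_glue Y.internal
    intro k' j' y hy
    rw [LinearMap.comp_apply, LinearMap.compl₂_apply,
      h.I_symm _ _ _ _ _ (Y.rho_mem k j x hx) _ hy, ← h.I_gamma]
    rcases k' with _ | k'
    · rw [h.gamma_zero j' y hy]; simp
    · rw [h.I_symm _ _ _ _ _ (Y.gamma_mem k' j' y hy) _ hx, ← mul_assoc, ← pow_add]
      have : j * j' + (j' + 2) * j = 2 * (j * j' + j) := by ring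
      rw [this, pow_mul]
      norm_num
  exact LinearMap.congr_fun₂ this x y

/-- The sesquilinear form. -/
noncomputable def B (n : ℕ) (conj : H →ₛₗ[starRingEnd ℂ] H) (L Λ : Module.End ℂ H)
    (I : H →ₗ[ℂ] H →ₗ[ℂ] ℂ) (C : Module.End ℂ H) (x y : H) : ℂ :=
  I (C x) (wop n L Λ (conj y))

/-- The adjoint of `rho` is `[Λ, gamma]`. -/
theorem B_rho (h : HodgeTheory Y n conj hpq L I) (hl : Lam Y n conj hpq L Λ I)
    {C : Module.End ℂ H} {l : ℂ} (hC : Tor hpq l C) (x y : H) :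
    B n conj L Λ I C (Y.rho x) y = B n conj L Λ I C x (Y.gamma' Λ y) := by
  have e : Λ (Y.gamma (conj y)) - Y.gamma (Λ (conj y)) = conj (Y.gamma' Λ y) := by
    rw [Strata.gamma'_apply, map_sub, hl.conj_lam, h.conj_gamma, h.conj_gamma, hl.conj_lam]
  rw [B, B, hC.comm_rho h, I_rho h, wop_low hl.lef hl.low
    (LinearMap.ext fun z => h.L_gamma z) (weight_gamma hl.lef hl.low h.gamma_zero) hl.cc_gamma, e]

/-- The adjoint of `gamma` is `[Λ, rho]`, up to the sign of the form. -/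
theorem B_gamma (h : HodgeTheory Y n conj hpq L I) (hl : Lam Y n conj hpq L Λ I)
    {C : Module.End ℂ H} {l : ℂ} (hC : Tor hpq l C) (x y : H) :
    B n conj L Λ I C (Y.gamma x) y = B n conj L Λ I C x (Y.rho' Λ y) := by
  have e : Λ (Y.rho (conj y)) - Y.rho (Λ (conj y)) = conj (Y.rho' Λ y) := by
    rw [Strata.rho'_apply, map_sub, hl.conj_lam, h.conj_rho, h.conj_rho, hl.conj_lam]
  rw [B, B, hC.comm_gamma h, h.I_gamma, wop_low hl.lef hl.low
    (LinearMap.ext fun z => h.L_rho z) (weight_rho hl.lef hl.low) hl.cc_rho, e]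

section seq

variable {C : Module.End ℂ H}

theorem B_add_left (x y z : H) :
    B n conj L Λ I C (x + y) z = B n conj L Λ I C x z + B n conj L Λ I C y z := by
  rw [B, B, B, map_add, map_add, LinearMap.add_apply]

theorem B_sub_right (x y z : H) :
    B n conj L Λ I C x (y - z) = B n conj L Λ I C x y - B n conj L Λ I C x z := by
  rw [B, B, B, map_sub, map_sub, map_sub]

theorem B_smul_right (c : ℝ) (x y : H) :
    B n conj L Λ I C x ((c : ℂ) • y) = c * B n conj L Λ I C x y := by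
  rw [B, B, LinearMap.map_smulₛₗ, Complex.conj_ofReal, map_smul, map_smul, smul_eq_mul]

theorem B_zero_right (x : H) : B n conj L Λ I C x 0 = 0 := by
  rw [B, map_zero, map_zero, map_zero]

theorem B_zero_left (x : H) : B n conj L Λ I C 0 x = 0 := by
  rw [B, map_zero, map_zero, LinearMap.zero_apply]

/-- The form on sequences. -/
noncomputable def P (n : ℕ) (conj : H →ₛₗ[starRingEnd ℂ] H) (L Λ : Module.End ℂ H)
    (I : H →ₗ[ℂ] H →ₗ[ℂ] ℂ) (C : Module.End ℂ H) (M : ℕ) (c : ℕ → ℝ) (f g : ℕ → H) : ℂ :=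
  ∑ i ∈ range M, (-1) ^ i * (c i : ℂ) * B n conj L Λ I C (f i) (g i)

/-- `S` is the adjoint of `d`. -/
theorem P_adj (h : HodgeTheory Y n conj hpq L I) (hl : Lam Y n conj hpq L Λ I)
    {l : ℂ} (hC : Tor hpq l C) {M s : ℕ} {b c : ℕ → ℝ} (h1 : ∀ i, c i = b i * (i + s))
    (h2 : ∀ i, c i = b (i + 1) * (i + 1)) {f g : ℕ → H} (hf : f M = 0) :
    P n conj L Λ I C M c (Y.d f) g = P n conj L Λ I C M b f (Y.S (-Λ) (-s) g) := by
  have e1 : ∀ i, B n conj L Λ I C (Y.d f i) (g i) = B n conj L Λ I C (f i) (Y.gamma' Λ (g i)) +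
      B n conj L Λ I C (f (i + 1)) (Y.rho' Λ (g i)) := by
    intro i
    rw [Strata.d_apply, B_add_left, B_rho h hl hC, B_gamma h hl hC]
  have e2 : ∀ i, Y.S (-Λ) (-s) g i = (((i : ℝ) + s : ℝ) : ℂ) • Y.gamma' Λ (g i) -
      ((i : ℝ) : ℂ) • Y.rho' Λ (g (i - 1)) := by
    intro i
    rw [Strata.S_apply, Strata.rho'_apply, Strata.gamma'_apply, Strata.rho'_apply,
      Strata.gamma'_apply]
    simp only [LinearMap.neg_apply, map_neg]
    push_cast
    module
  have e3 : ∀ i, B n conj L Λ I C (f i) (Y.S (-Λ) (-s) g i)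
      = ((i : ℂ) + s) * B n conj L Λ I C (f i) (Y.gamma' Λ (g i)) -
        (i : ℂ) * B n conj L Λ I C (f i) (Y.rho' Λ (g (i - 1))) := by
    intro i
    rw [e2, B_sub_right, B_smul_right, B_smul_right]
    push_cast
    ring
  have e4 : ∑ i ∈ range M, (-1) ^ i * (c i : ℂ) *
      B n conj L Λ I C (f (i + 1)) (Y.rho' Λ (g i))
      = -∑ i ∈ range M, (-1) ^ i * (b i : ℂ) *
        ((i : ℂ) * B n conj L Λ I C (f i) (Y.rho' Λ (g (i - 1)))) := by
    have e5 : ∑ i ∈ range (M + 1), (-1) ^ i * (b i : ℂ) *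
        ((i : ℂ) * B n conj L Λ I C (f i) (Y.rho' Λ (g (i - 1))))
        = ∑ i ∈ range M, (-1) ^ i * (b i : ℂ) *
        ((i : ℂ) * B n conj L Λ I C (f i) (Y.rho' Λ (g (i - 1)))) := by
      rw [Finset.sum_range_succ, hf, B_zero_left, mul_zero, mul_zero, add_zero]
    rw [← e5, Finset.sum_range_succ', Nat.cast_zero, zero_mul, mul_zero, add_zero,
      ← Finset.sum_neg_distrib]
    refine Finset.sum_congr rfl fun i _ => ?_
    rw [h2 i, Nat.add_sub_cancel]
    push_cast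
    ring
  rw [P, P]
  calc ∑ i ∈ range M, (-1) ^ i * (c i : ℂ) * B n conj L Λ I C (Y.d f i) (g i)
      = ∑ i ∈ range M, (-1) ^ i * (c i : ℂ) * B n conj L Λ I C (f i) (Y.gamma' Λ (g i)) +
        ∑ i ∈ range M, (-1) ^ i * (c i : ℂ) *
          B n conj L Λ I C (f (i + 1)) (Y.rho' Λ (g i)) := by
        rw [← Finset.sum_add_distrib]
        refine Finset.sum_congr rfl fun i _ => ?_
        rw [e1]
        ring
    _ = ∑ i ∈ range M, (-1) ^ i * (b i : ℂ) * B n conj L Λ I C (f i) (Y.S (-Λ) (-s) g i) := by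
        rw [e4, ← sub_eq_add_neg, ← Finset.sum_sub_distrib]
        refine Finset.sum_congr rfl fun i _ => ?_
        rw [e3, h1 i]
        push_cast
        ring

theorem P_pos (h : HodgeTheory Y n conj hpq L I) (hl : Lam Y n conj hpq L Λ I)
    (hC : Tor hpq Complex.I C) {d : ℕ} {s : ℤ} {t M : ℕ} (ht : (t : ℤ) = d + s)
    {c : ℕ → ℝ} (hc : ∀ i, 0 < c i)
    {f : ℕ → H} (hf : f ∈ Y.wt d s) :
    NN (eps t * P n conj L Λ I C M c f f) (∀ i ∈ range M, f i = 0) := by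
  rw [P, Finset.mul_sum]
  refine NN.sum _ fun i _ => ?_
  rcases Y.wt_apply hf i with h0 | ⟨k, j, h1, h2, h3, h4⟩
  · rw [h0, B_zero_left, mul_zero, mul_zero]
    exact NN.zero rfl
  · have h5 : t = j + 2 * i := by omega
    have h6 : ((-1 : ℂ) ^ i) * (-1) ^ i = 1 := by rw [← mul_pow]; norm_num
    have h7 : eps t * ((-1) ^ i * (c i : ℂ) * B n conj L Λ I C (f i) (f i))
        = (c i : ℂ) * (eps j * I (C (f i)) (wop n L Λ (conj (f i)))) := by
      rw [h5, eps_add, B]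
      linear_combination ((c i : ℂ) * eps j * I (C (f i)) (wop n L Λ (conj (f i)))) * h6
    rw [h7]
    exact (pos_gr h hl hC h4).mul (hc i)

end seq

/-- The weights. -/
noncomputable def wb (s i : ℕ) : ℝ := (s - 1 + i).factorial / i.factorial

/-- The weights. -/
noncomputable def wc (s i : ℕ) : ℝ := (s + i).factorial / i.factorial

theorem wb_pos (s i : ℕ) : 0 < wb s i := by
  rw [wb]; positivity

theorem wc_pos (s i : ℕ) : 0 < wc s i := by
  rw [wc]; positivity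

theorem wc_one {s : ℕ} (hs : 1 ≤ s) (i : ℕ) : wc s i = wb s i * (i + s) := by
  have h1 : (s + i).factorial = (s + i) * (s - 1 + i).factorial := by
    have : s + i = (s - 1 + i) + 1 := by omega
    rw [this, Nat.factorial_succ]
  rw [wc, wb, h1]
  push_cast
  ring

theorem wc_two {s : ℕ} (hs : 1 ≤ s) (i : ℕ) : wc s i = wb s (i + 1) * (i + 1) := by
  have h1 : s - 1 + (i + 1) = s + i := by omega
  have h2 : (i.factorial : ℝ) ≠ 0 := by positivity
  rw [wc, wb, h1, Nat.factorial_succ]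
  push_cast
  field_simp

theorem lowers_neg (hL : Low n Y.gr L Λ) : Y.Lowers (-Λ) := by
  intro k j x hx
  rcases Nat.lt_or_ge j 2 with h2 | h2
  · right
    rw [LinearMap.neg_apply, hL.small k j h2 x hx, neg_zero]
  · left
    obtain ⟨i, rfl⟩ : ∃ i, j = i + 2 := ⟨j - 2, by omega⟩
    refine ⟨h2, ?_⟩
    rw [LinearMap.neg_apply, Nat.add_sub_cancel]
    exact Submodule.neg_mem _ (hL.mem k i x hx)

/-- **The Laplacian argument applies.** -/
theorem pos_cochain (h : HodgeTheory Y n conj hpq L I) (hl : Lam Y n conj hpq L Λ I)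
    {d s : ℕ} (hs : 1 ≤ s) (hsd : s ≤ d + 1) (w : ℕ → H) (hw : w ∈ Y.wt d (-s + 1))
    (h0 : Y.d (Y.S (-Λ) (-s) (Y.d w)) = 0) : Y.d w = 0 := by
  obtain ⟨C, hC⟩ := exists_tor h Complex.I
  have hlow := lowers_neg hl.low
  have hdw : Y.d w ∈ Y.wt (d + 1) (-s) := by
    have := Y.d_wt d (-s + 1) hw
    rwa [add_sub_cancel_right] at this
  have hS : Y.S (-Λ) (-s) (Y.d w) ∈ Y.wt d (-s + 1) := Y.S_wt hlow d (-s) hdw
  have hM : ∀ f ∈ Y.wt d (-s + 1), f (d + 2) = 0 := by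
    intro f hf
    rcases Y.wt_apply hf (d + 2) with h1 | ⟨k, j, h1, h2, h3, h4⟩
    · exact h1
    · omega
  have hz : ∀ {e : ℕ} {r : ℤ}, e ≤ d + 1 → ∀ f ∈ Y.wt e r, (∀ i ∈ range (d + 2), f i = 0) →
      f = 0 := by
    intro e r he f hf h1
    funext i
    by_cases hi : i < d + 2
    · exact h1 i (mem_range.mpr hi)
    · rcases Y.wt_apply hf i with h2 | ⟨k, j, h2, h3, h4, h5⟩
      · exact h2
      · omega
  obtain ⟨t, ht⟩ : ∃ t : ℕ, t + s = d + 1 := ⟨d + 1 - s, by omega⟩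
  have a1 := P_adj (M := d + 2) (g := Y.d w) h hl hC (wc_one hs) (wc_two hs) (hM _ hS)
  rw [h0] at a1
  have a2 : P n conj L Λ I C (d + 2) (wc s) 0 (Y.d w) = 0 := by
    rw [P]
    refine Finset.sum_eq_zero fun i _ => ?_
    rw [Pi.zero_apply, B_zero_left, mul_zero]
  rw [a2] at a1
  have a3 := P_pos (M := d + 2) (t := t) h hl hC (by omega) (wb_pos s) hS
  rw [← a1, mul_zero] at a3
  have a4 := hz (by omega) _ hS (a3.eq_zero rfl)
  have b1 := P_adj (M := d + 2) (g := Y.d w) h hl hC (wc_one hs) (wc_two hs) (hM _ hw)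
  rw [a4] at b1
  have b2 : P n conj L Λ I C (d + 2) (wb s) w 0 = 0 := by
    rw [P]
    refine Finset.sum_eq_zero fun i _ => ?_
    rw [Pi.zero_apply, B_zero_right, mul_zero]
  rw [b2] at b1
  have b3 := P_pos (M := d + 2) (t := t) h hl hC (by push_cast; omega) (wc_pos s) hdw
  rw [b1, mul_zero] at b3
  exact hz le_rfl _ hdw (b3.eq_zero rfl)

/-- `N ^ s` is injective on the part of weight `m + s`. -/
theorem inj_of_hodge [FiniteDimensional ℂ H] (h : HodgeTheory Y n conj hpq L I)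
    (hl : Lam Y n conj hpq L Λ I) (hq : 1 < q) {m : ℕ} {V : Type} [AddCommGroup V] [Module ℂ V]
    {cl : (ℕ → H) →ₗ[ℂ] V} {N F : Module.End ℂ V} (hV : Y.Coh m cl N F) {s : ℕ}
    (x : V) (hx : x ∈ Y.W m cl s) (h0 : (N ^ s) x = 0) : x = 0 := by
  rcases Nat.eq_zero_or_pos s with rfl | hs
  · simpa using h0
  rcases Nat.lt_or_ge m s with hlt | hle
  · obtain ⟨z, ⟨hz, _⟩, rfl⟩ := hx
    have h1 : Y.wt m s ≤ ⊥ := Y.wt_le fun i k j h1 h2 h3 => by omega
    have h2 : z = 0 := by simpa using h1 hz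
    rw [h2, map_zero]
  · obtain ⟨d, rfl⟩ : ∃ d, m = d + 1 := ⟨m - 1, by omega⟩
    exact hV.inj_of_laplace hq (lowers_neg hl.low)
      (fun w hw hw0 => pos_cochain h hl hs hle w hw hw0) x hx h0

end Pool.Agent.LibLS20
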