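import Pool.Agent.LibLS20.Base

/-!
Positivity of the Hermitian form on all classes.
-/

namespace Pool.Agent.LibLS20

open Finset Pool.Agent.LibX1 Pool.Agent.LibHL85

variable {q : ℕ} {H : Type} [AddCommGroup H] [Module ℂ H] {Y : Strata q ℂ H}
    {n : ℕ} {conj : H →ₛₗ[starRingEnd ℂ] H} {hpq : ℕ → ℕ → ℕ → Submodule ℂ H}
    {L Λ : Module.End ℂ H} {I : H →ₗ[ℂ] H →ₗ[ℂ] ℂ}

/-- The sign of the Hodge-Riemann relations. -/
noncomputable def eps (j : ℕ) : ℂ := (-1) ^ (j * (j - 1) / 2)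

theorem eps_add_two (j : ℕ) : eps (j + 2) = -eps j := by
  have h : (j + 2) * (j + 2 - 1) / 2 = j * (j - 1) / 2 + (2 * j + 1) := by
    have h1 : (j + 2) * (j + 2 - 1) = j * (j - 1) + 2 * (2 * j + 1) := by
      rcases j with _ | j
      · rfl
      · simp only [Nat.add_sub_cancel]
        have : j + 1 + 2 - 1 = j + 2 := by omega
        rw [this]
        ring
    rw [h1]
    omega
  rw [eps, eps, h, pow_add]
  rw [pow_succ, pow_mul]
  norm_num

theorem eps_add (j b : ℕ) : eps (j + 2 * b) = (-1) ^ b * eps j := by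
  induction b with
  | zero => simp
  | succ b ih =>
    rw [show j + 2 * (b + 1) = j + 2 * b + 2 by ring, eps_add_two, ih]
    ring

/-- `z` is a real number `≥ 0`, and `P` holds if it is zero. -/
def NN (z : ℂ) (P : Prop) : Prop := ∃ c : ℝ, 0 ≤ c ∧ (c = 0 → P) ∧ z = c

theorem NN.zero {P : Prop} (hP : P) : NN 0 P := ⟨0, le_rfl, fun _ => hP, by simp⟩

theorem NN.add {z w : ℂ} {P Q : Prop} (h : NN z P) (h' : NN w Q) : NN (z + w) (P ∧ Q) := by
  obtain ⟨c, hc, h1, rfl⟩ := h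
  obtain ⟨d, hd, h2, rfl⟩ := h'
  refine ⟨c + d, add_nonneg hc hd, fun h0 => ⟨h1 ?_, h2 ?_⟩, by push_cast; ring⟩
  · linarith
  · linarith

theorem NN.mul {z : ℂ} {P : Prop} (h : NN z P) {d : ℝ} (hd : 0 < d) : NN (d * z) P := by
  obtain ⟨c, hc, h1, rfl⟩ := h
  refine ⟨d * c, mul_nonneg hd.le hc, fun h0 => h1 ?_, by push_cast; ring⟩
  exact (mul_eq_zero.mp h0).resolve_left hd.ne'

theorem NN.imp {z : ℂ} {P Q : Prop} (h : NN z P) (hPQ : P → Q) : NN z Q := by
  obtain ⟨c, hc, h1, rfl⟩ := h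
  exact ⟨c, hc, fun h0 => hPQ (h1 h0), rfl⟩

theorem NN.sum {ι : Type*} (s : Finset ι) {z : ι → ℂ} {P : ι → Prop} (h : ∀ i ∈ s, NN (z i) (P i)) :
    NN (∑ i ∈ s, z i) (∀ i ∈ s, P i) := by
  classical
  induction s using Finset.induction_on with
  | empty => exact ⟨0, le_rfl, fun _ i hi => absurd hi (Finset.notMem_empty i), by simp⟩
  | insert a s ha ih =>
    rw [Finset.sum_insert ha]
    refine ((h a (Finset.mem_insert_self a s)).add
      (ih fun i hi => h i (Finset.mem_insert_of_mem hi))).imp ?_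
    rintro ⟨h1, h2⟩ i hi
    rcases Finset.mem_insert.mp hi with rfl | hi
    · exact h1
    · exact h2 i hi

theorem NN.eq_zero {z : ℂ} {P : Prop} (h : NN z P) (hz : z = 0) : P := by
  obtain ⟨c, _, h1, rfl⟩ := h
  exact h1 (by exact_mod_cast hz)

theorem hpow (h : HodgeTheory Y n conj hpq L I) {k p r : ℕ} {x : H} (hx : x ∈ hpq k p r) (b : ℕ) :
    (L ^ b) x ∈ hpq k (p + b) (r + b) := by
  induction b with
  | zero => simpa using hx
  | succ b ih =>
    rw [pow_succ', Module.End.mul_apply]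
    exact h.hodge_L _ _ _ _ ih

theorem conj_pow (h : HodgeTheory Y n conj hpq L I) (b : ℕ) (x : H) :
    conj ((L ^ b) x) = (L ^ b) (conj x) := by
  induction b with
  | zero => rfl
  | succ b ih =>
    rw [pow_succ', Module.End.mul_apply, h.conj_L, ih, Module.End.mul_apply]

theorem I_pow (h : HodgeTheory Y n conj hpq L I) (b : ℕ) (x y : H) :
    I ((L ^ b) x) y = I x ((L ^ b) y) := by
  induction b generalizing y with
  | zero => rfl
  | succ b ih =>
    rw [pow_succ', Module.End.mul_apply, h.I_L, ih, ← Module.End.mul_apply, ← pow_succ,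
      pow_succ']

theorem I_lam_pow (hl : Lam Y n conj hpq L Λ I) (b : ℕ) (x y : H) :
    I ((Λ ^ b) x) y = I x ((Λ ^ b) y) := by
  induction b generalizing y with
  | zero => rfl
  | succ b ih =>
    rw [pow_succ', Module.End.mul_apply, hl.I_lam, ih, ← Module.End.mul_apply, ← pow_succ,
      pow_succ']

/-- One step of the Lefschetz decomposition. -/
theorem dec (h : HodgeTheory Y n conj hpq L I) {k p r a : ℕ} (hn : k + p + r + a = n) {z : H}
    (hz : z ∈ hpq k p r) : ∃ x ∈ hpq k p r, (L ^ (a + 1)) x = 0 ∧ (z = x ∨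
      ∃ p' r', p = p' + 1 ∧ r = r' + 1 ∧ ∃ z' ∈ hpq k p' r', z = x + L z') := by
  by_cases hpr : p = 0 ∨ r = 0
  · refine ⟨z, hz, ?_, Or.inl rfl⟩
    have h1 := hpow h hz (a + 1)
    rw [h.hodge_dim k _ _ (by omega)] at h1
    exact (Submodule.mem_bot ℂ).mp h1
  · rw [not_or] at hpr
    obtain ⟨p', rfl⟩ : ∃ p', p = p' + 1 := ⟨p - 1, by omega⟩
    obtain ⟨r', rfl⟩ : ∃ r', r = r' + 1 := ⟨r - 1, by omega⟩
    have h1 := hpow h hz (a + 1)
    rw [show p' + 1 + (a + 1) = p' + (a + 2) by ring, show r' + 1 + (a + 1) = r' + (a + 2) by ring]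
      at h1
    obtain ⟨z', hz', h2⟩ := h.hard_surj k p' r' (a + 2) (by omega) _ h1
    refine ⟨z - L z', Submodule.sub_mem _ hz (h.hodge_L k p' r' z' hz'), ?_,
      Or.inr ⟨p', r', rfl, rfl, z', hz', by abel⟩⟩
    rw [map_sub, ← Module.End.mul_apply, ← pow_succ, h2, sub_self]

/-- The value of the Weil element on `L ^ b` of a primitive class. -/
theorem wop_prim (hl : Lam Y n conj hpq L Λ I) {a b : ℕ} (ha : a ≤ n) (hb : b ≤ a) :
    ∃ c : ℝ, 0 < c ∧ ∀ x, Lowest L Λ a x →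
      wop n L Λ ((L ^ b) x) = ((-1 : ℂ) ^ b * c) • (L ^ (a - b)) x := by
  obtain ⟨c, hc, h1⟩ := exists_pos_coef a b hb
  refine ⟨(a.factorial : ℝ)⁻¹ * c, mul_pos (by positivity) hc, fun x hx => ?_⟩
  rw [wop_L_pow hl.lef hl.low, wop, hx.weil (by omega), map_smul, h1 hx, smul_smul, smul_smul]
  congr 1
  push_cast
  ring

theorem lowest_conj (h : HodgeTheory Y n conj hpq L I) (hl : Lam Y n conj hpq L Λ I)
    {k p r a : ℕ} (hn : k + p + r + a = n) {x : H} (hx : x ∈ hpq k p r)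
    (h0 : (L ^ (a + 1)) x = 0) : Lowest L Λ a (conj x) := by
  refine lowest hl.lef hl.low (k := k) (j := r + p) (by omega)
    (h.hodge_gr _ _ _ (h.hodge_conj _ _ _ _ hx)) ?_
  rw [← conj_pow h, h0, map_zero]

theorem pos_prim (h : HodgeTheory Y n conj hpq L I) (hl : Lam Y n conj hpq L Λ I)
    {k p r a b : ℕ} (hn : k + p + r + a = n) (hb : b ≤ a) {x : H} (hx : x ∈ hpq k p r)
    (h0 : (L ^ (a + 1)) x = 0) :
    NN (Complex.I ^ ((p : ℤ) - r) * eps (p + r + 2 * b) *
        I ((L ^ b) x) (wop n L Λ (conj ((L ^ b) x)))) (x = 0) := by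
  by_cases hx0 : x = 0
  · rw [hx0]
    simp only [map_zero, mul_zero]
    exact NN.zero trivial
  · obtain ⟨d, hd, h1⟩ := wop_prim hl (a := a) (b := b) (by omega) hb
    obtain ⟨c, hc, h2⟩ := h.riemann k p r a hn x hx h0 hx0
    refine ⟨d * c, (mul_pos hd hc).le, fun h3 => absurd h3 (mul_pos hd hc).ne', ?_⟩
    rw [conj_pow h, h1 _ (lowest_conj h hl hn hx h0), map_smul, smul_eq_mul, ← I_pow h,
      ← Module.End.mul_apply, ← pow_add, Nat.sub_add_cancel hb, eps_add]
    have h4 : ((-1 : ℂ) ^ b) * (-1) ^ b = 1 := by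
      rw [← mul_pow]; norm_num
    push_cast
    rw [← h2, ← eps]
    linear_combination (Complex.I ^ ((p : ℤ) - r) * eps (p + r) * d * I ((L ^ a) x) (conj x)) * h4

theorem cross_one (h : HodgeTheory Y n conj hpq L I) (hl : Lam Y n conj hpq L Λ I)
    {a b : ℕ} {x : H} (hx : Lowest L Λ a x) (z : H) :
    I ((L ^ b) x) (wop n L Λ (conj ((L ^ (b + 1)) z))) = 0 := by
  rw [conj_pow h, wop_L_pow hl.lef hl.low, map_smul, ← I_lam_pow hl, hx.f_pow_succ, map_zero,
    LinearMap.zero_apply, smul_zero]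

theorem cross_two (h : HodgeTheory Y n conj hpq L I) (hl : Lam Y n conj hpq L Λ I)
    {a b : ℕ} (ha : a ≤ n) (hb : b ≤ a) {x : H} (hx : Lowest L Λ a (conj x)) (z : H) :
    I ((L ^ (b + 1)) z) (wop n L Λ (conj ((L ^ b) x))) = 0 := by
  obtain ⟨d, -, h1⟩ := wop_prim hl ha hb
  rw [conj_pow h, h1 _ hx, map_smul, I_pow h, ← Module.End.mul_apply, ← pow_add,
    show b + 1 + (a - b) = a + 1 by omega, hx.top, map_zero, smul_zero]

/-- **Positivity on the classes `L ^ b z`.** -/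
theorem pos_typed (h : HodgeTheory Y n conj hpq L I) (hl : Lam Y n conj hpq L Λ I) :
    ∀ p r k a, k + p + r + a = n → ∀ z ∈ hpq k p r, ∀ b ≤ a,
      NN (Complex.I ^ ((p : ℤ) - r) * eps (p + r + 2 * b) *
        I ((L ^ b) z) (wop n L Λ (conj ((L ^ b) z)))) (z = 0) := by
  intro p
  induction p with
  | zero =>
    intro r k a hn z hz b hb
    obtain ⟨x, hx, h0, hz1 | ⟨p', r', hp', _⟩⟩ := dec h hn hz
    · rw [hz1]
      exact pos_prim h hl hn hb hx h0
    · omega
  | succ p ih =>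
    intro r k a hn z hz b hb
    obtain ⟨x, hx, h0, hz1 | ⟨p', r', hp', rfl, z', hz', hz1⟩⟩ := dec h hn hz
    · rw [hz1]
      exact pos_prim h hl hn hb hx h0
    · obtain rfl : p = p' := by omega
      have h1 := pos_prim h hl hn hb hx h0
      have h2 := ih r' k (a + 2) (by omega) z' hz' (b + 1) (by omega)
      have hlx : Lowest L Λ a x := lowest hl.lef hl.low (k := k) (j := p + 1 + (r' + 1)) (by omega)
        (h.hodge_gr _ _ _ hx) h0
      have h3 := cross_one (b := b) h hl hlx z'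
      have h4 := cross_two (b := b) h hl (by omega) hb (lowest_conj h hl hn hx h0) z'
      have h5 : (L ^ b) z = (L ^ b) x + (L ^ (b + 1)) z' := by
        rw [hz1, map_add, ← Module.End.mul_apply, ← pow_succ]
      have h6 : I ((L ^ b) z) (wop n L Λ (conj ((L ^ b) z)))
          = I ((L ^ b) x) (wop n L Λ (conj ((L ^ b) x))) +
            I ((L ^ (b + 1)) z') (wop n L Λ (conj ((L ^ (b + 1)) z'))) := by
        rw [h5]
        simp only [map_add, LinearMap.add_apply]
        rw [h3, h4]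
        ring
      rw [h6, mul_add]
      have e1 : ((p + 1 : ℕ) : ℤ) - ((r' + 1 : ℕ) : ℤ) = (p : ℤ) - r' := by push_cast; ring
      have e2 : p + 1 + (r' + 1) + 2 * b = p + r' + 2 * (b + 1) := by ring
      rw [e1, e2] at h1 ⊢
      refine (h1.add h2).imp ?_
      rintro ⟨h7, h8⟩
      rw [hz1, h7, h8, map_zero, add_zero]

/-- **Positivity on the classes of type `(p, r)`.** -/
theorem pos_hpq (h : HodgeTheory Y n conj hpq L I) (hl : Lam Y n conj hpq L Λ I) {k p r : ℕ}
    {y : H} (hy : y ∈ hpq k p r) :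
    NN (Complex.I ^ ((p : ℤ) - r) * eps (p + r) * I y (wop n L Λ (conj y))) (y = 0) := by
  rcases Nat.lt_or_ge n (k + p + r) with hlt | hle
  · obtain ⟨m, hm⟩ : ∃ m, k + p + r = n + m := ⟨k + p + r - n, by omega⟩
    by_cases hpr : p < m ∨ r < m
    · rw [h.hodge_dim k p r (by omega)] at hy
      rw [(Submodule.mem_bot ℂ).mp hy]
      simp only [map_zero, mul_zero]
      exact NN.zero trivial
    · rw [not_or, not_lt, not_lt] at hpr
      obtain ⟨p', rfl⟩ : ∃ p', p = p' + m := ⟨p - m, by omega⟩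
      obtain ⟨r', rfl⟩ : ∃ r', r = r' + m := ⟨r - m, by omega⟩
      obtain ⟨z, hz, rfl⟩ := h.hard_surj k p' r' m (by omega) y hy
      have h1 := pos_typed h hl p' r' k m (by omega) z hz m le_rfl
      have e1 : ((p' + m : ℕ) : ℤ) - ((r' + m : ℕ) : ℤ) = (p' : ℤ) - r' := by push_cast; ring
      have e2 : p' + m + (r' + m) = p' + r' + 2 * m := by ring
      rw [e1, e2]
      exact h1.imp fun h2 => by rw [h2, map_zero]
  · obtain ⟨a, ha⟩ : ∃ a, k + p + r + a = n := ⟨n - (k + p + r), by omega⟩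
    have h1 := pos_typed h hl p r k a ha y hy 0 (Nat.zero_le _)
    rw [mul_zero, add_zero, pow_zero] at h1
    exact h1

end Pool.Agent.LibLS20
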