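import Pool.Agent.LibLS20.Final
import Pool.Agent.LibHL10.Glue

/-!
Purity over the complex numbers.
-/

namespace Pool.Agent.LibLS20

open Pool.Agent.WM85 Pool.Agent.LibX1

namespace HodgeTheory

variable {q : ℕ} {H : Type} [AddCommGroup H] [Module ℂ H] {Y : Strata q ℂ H}
    {n : ℕ} {conj : H →ₛₗ[starRingEnd ℂ] H} {hpq : ℕ → ℕ → ℕ → Submodule ℂ H}
    {L : Module.End ℂ H} {I : H →ₗ[ℂ] H →ₗ[ℂ] ℂ}

/-- The graded pieces of the monodromy filtration are pure, in all degrees. -/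
theorem pure [FiniteDimensional ℂ H] (h : HodgeTheory Y n conj hpq L I)
    (hq : 1 < q) {m : ℕ} {V : Type} [AddCommGroup V] [Module ℂ V]
    {cl : (ℕ → H) →ₗ[ℂ] V} {N F : Module.End ℂ V} (hV : Y.Coh m cl N F)
    {M : ℤ → Submodule ℂ V} (hM : IsMono N M) (s : ℤ) : PureGr q (m + s) F M s :=
  (h.dual h.I_ne).pure hq
    (fun _ _ _ _ _ _ _ hV _ _ x hx h0 => h.inj hq hV x hx h0) hV hM s

end HodgeTheory

end Pool.Agent.LibLS20
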