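import Mathlib

/-!
Conjugation by exponentials of nilpotent elements, and the Weil element of an `sl_2`-triple.
-/

namespace Pool.Agent.LibLS20

open Finset

section ring

variable {K A : Type*} [Field K] [CharZero K] [Ring A] [Algebra K A]

/-- The exponential of an element `a` with `a ^ N = 0`. -/
def ex (K : Type*) {A : Type*} [Field K] [Ring A] [Algebra K A] (N : ℕ) (a : A) : A :=
  ∑ i ∈ range N, (i.factorial : K)⁻¹ • a ^ i

omit [CharZero K] in
theorem ex_succ {N : ℕ} {a : A} (ha : a ^ N = 0) :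
    ex K N a = ∑ i ∈ range (N + 1), (i.factorial : K)⁻¹ • a ^ i := by
  rw [Finset.sum_range_succ, ha, smul_zero, add_zero, ex]

omit [CharZero K] in
theorem ex_succ2 {N : ℕ} {a : A} (ha : a ^ N = 0) :
    ex K N a = ∑ i ∈ range (N + 2), (i.factorial : K)⁻¹ • a ^ i := by
  rw [Finset.sum_range_succ, pow_succ, ha, zero_mul, smul_zero, add_zero, ex_succ ha]

theorem pow_mul_first (K : Type*) {A : Type*} [Field K] [Ring A] [Algebra K A] {a T T1 : A} (h : a * T = T * a + T1) (h1 : a * T1 = T1 * a) (i : ℕ) :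
    a ^ (i + 1) * T = T * a ^ (i + 1) + ((i + 1 : ℕ) : K) • (T1 * a ^ i) := by
  have hc : ∀ i : ℕ, a ^ i * T1 = T1 * a ^ i := fun i => (Commute.pow_left h1 i)
  induction i with
  | zero => simp [h]
  | succ i ih =>
    rw [pow_succ, mul_assoc, h, mul_add, ← mul_assoc, ih, hc, add_mul, smul_mul_assoc,
      mul_assoc T, ← pow_succ, mul_assoc T1, ← pow_succ, add_assoc]
    congr 1
    push_cast
    rw [add_smul ((i : K) + 1) 1, one_smul]

theorem exp_mul_first {N : ℕ} {a T T1 : A} (hN : a ^ N = 0) (h : a * T = T * a + T1)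
    (h1 : a * T1 = T1 * a) : ex K N a * T = (T + T1) * ex K N a := by
  have e1 : ex K N a = ∑ i ∈ range (N + 1), (i.factorial : K)⁻¹ • a ^ i := ex_succ hN
  have e2 : ex K N a = ∑ i ∈ range N, (i.factorial : K)⁻¹ • a ^ i := rfl
  have hf : ∀ i : ℕ, ((i + 1).factorial : K)⁻¹ * ((i + 1 : ℕ) : K) = (i.factorial : K)⁻¹ := by
    intro i
    rw [Nat.factorial_succ]
    have : (i.factorial : K) ≠ 0 := by exact_mod_cast i.factorial_ne_zero
    have h2 : ((i + 1 : ℕ) : K) ≠ 0 := Nat.cast_ne_zero.mpr (Nat.succ_ne_zero _)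
    push_cast at h2 ⊢
    field_simp
  rw [add_mul]
  nth_rewrite 1 [e1]
  nth_rewrite 1 [e1]
  rw [e2, Finset.sum_range_succ', add_mul, mul_add, Finset.sum_mul,
    Finset.mul_sum, Finset.mul_sum]
  have h2 : ∑ i ∈ range N, ((i + 1).factorial : K)⁻¹ • a ^ (i + 1) * T
      = ∑ i ∈ range N, T * ((i + 1).factorial : K)⁻¹ • a ^ (i + 1) +
        ∑ i ∈ range N, T1 * (i.factorial : K)⁻¹ • a ^ i := by
    rw [← Finset.sum_add_distrib]
    refine Finset.sum_congr rfl fun i _ => ?_
    rw [smul_mul_assoc, pow_mul_first K h h1, smul_add, smul_smul, hf, mul_smul_comm, mul_smul_comm]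
  rw [h2]
  simp only [Nat.factorial_zero, Nat.cast_one, inv_one, pow_zero, one_smul, one_mul, mul_one]
  abel

theorem pow_mul_second (K : Type*) {A : Type*} [Field K] [CharZero K] [Ring A] [Algebra K A] {a T T1 T2 : A} (h : a * T = T * a + T1) (h1 : a * T1 = T1 * a + T2)
    (h2 : a * T2 = T2 * a) (i : ℕ) :
    a ^ (i + 2) * T = T * a ^ (i + 2) + ((i + 2 : ℕ) : K) • (T1 * a ^ (i + 1)) +
      (((i + 2) * (i + 1) : ℕ) : K) • ((2 : K)⁻¹ • T2 * a ^ i) := by
  induction i with
  | zero =>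
    have : a ^ (0 + 2) * T = a * (a * T) := by rw [zero_add, pow_two, mul_assoc]
    rw [this, h, mul_add, ← mul_assoc, h, h1, add_mul]
    simp only [zero_add, pow_one, pow_zero, mul_one, pow_two, Nat.cast_ofNat, mul_assoc]
    rw [smul_smul]
    norm_num
    rw [two_smul]
    abel
  | succ i ih =>
    have e0 : a ^ (i + 1 + 2) * T = a ^ (i + 2) * (a * T) := by
      rw [← mul_assoc, ← pow_succ]
    have e1 := pow_mul_first K h1 h2 (i + 1)
    rw [e0, h, mul_add, ← mul_assoc, ih, show a ^ (i + 2) * T1 = a ^ (i + 1 + 1) * T1 from rfl, e1]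
    simp only [add_mul, smul_mul_assoc, mul_assoc, ← pow_succ]
    push_cast
    module

theorem exp_mul_second {N : ℕ} {a T T1 T2 : A} (hN : a ^ N = 0) (h : a * T = T * a + T1)
    (h1 : a * T1 = T1 * a + T2) (h2 : a * T2 = T2 * a) :
    ex K N a * T = (T + T1 + (2 : K)⁻¹ • T2) * ex K N a := by
  have e2 : ex K N a = ∑ i ∈ range N, (i.factorial : K)⁻¹ • a ^ i := rfl
  have e1 : ex K N a = ∑ i ∈ range (N + 1), (i.factorial : K)⁻¹ • a ^ i := ex_succ hN
  have e0 : ex K N a = ∑ i ∈ range (N + 2), (i.factorial : K)⁻¹ • a ^ i := ex_succ2 hN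
  have hz : ∀ i : ℕ, (i.factorial : K) ≠ 0 := fun i => by exact_mod_cast i.factorial_ne_zero
  have hf1 : ∀ i : ℕ, ((i + 2).factorial : K)⁻¹ * ((i + 2 : ℕ) : K)
      = ((i + 1).factorial : K)⁻¹ := by
    intro i
    rw [Nat.factorial_succ (i + 1)]
    have := hz (i + 1)
    have h2 : ((i + 1 + 1 : ℕ) : K) ≠ 0 := Nat.cast_ne_zero.mpr (Nat.succ_ne_zero _)
    push_cast at h2 ⊢
    field_simp
    ring
  have hf2 : ∀ i : ℕ, ((i + 2).factorial : K)⁻¹ * (((i + 2) * (i + 1) : ℕ) : K)
      = (i.factorial : K)⁻¹ := by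
    intro i
    rw [Nat.factorial_succ (i + 1), Nat.factorial_succ i]
    have := hz i
    have h2 : ((i + 1 + 1 : ℕ) : K) ≠ 0 := Nat.cast_ne_zero.mpr (Nat.succ_ne_zero _)
    have h3 : ((i + 1 : ℕ) : K) ≠ 0 := Nat.cast_ne_zero.mpr (Nat.succ_ne_zero _)
    push_cast at h2 h3 ⊢
    field_simp
    ring
  have s0 : ∀ g : ℕ → A, ∑ i ∈ range (N + 2), g i
      = ∑ i ∈ range N, g (i + 2) + g 1 + g 0 := by
    intro g
    rw [Finset.sum_range_succ', Finset.sum_range_succ']
  have s1 : ∀ g : ℕ → A, ∑ i ∈ range (N + 1), g i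
      = ∑ i ∈ range N, g (i + 1) + g 0 := fun g => Finset.sum_range_succ' g N
  have t0 : ex K N a * T = ∑ i ∈ range N, ((i + 2).factorial : K)⁻¹ • a ^ (i + 2) * T +
      a * T + T := by
    rw [e0, Finset.sum_mul, s0]
    simp
  have t1 : T * ex K N a = ∑ i ∈ range N, T * ((i + 2).factorial : K)⁻¹ • a ^ (i + 2) +
      T * a + T := by
    rw [e0, Finset.mul_sum, s0]
    simp
  have t2 : T1 * ex K N a = ∑ i ∈ range N, T1 * ((i + 1).factorial : K)⁻¹ • a ^ (i + 1) + T1 := by
    rw [e1, Finset.mul_sum, s1]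
    simp
  have t3 : ((2 : K)⁻¹ • T2) * ex K N a = ∑ i ∈ range N,
      ((2 : K)⁻¹ • T2) * (i.factorial : K)⁻¹ • a ^ i := by
    rw [e2, Finset.mul_sum]
  rw [add_mul, add_mul, t0, t1, t2, t3, h]
  have t4 : ∑ i ∈ range N, ((i + 2).factorial : K)⁻¹ • a ^ (i + 2) * T
      = ∑ i ∈ range N, T * ((i + 2).factorial : K)⁻¹ • a ^ (i + 2) +
        ∑ i ∈ range N, T1 * ((i + 1).factorial : K)⁻¹ • a ^ (i + 1) +
        ∑ i ∈ range N, ((2 : K)⁻¹ • T2) * (i.factorial : K)⁻¹ • a ^ i := by
    rw [← Finset.sum_add_distrib, ← Finset.sum_add_distrib]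
    refine Finset.sum_congr rfl fun i _ => ?_
    rw [smul_mul_assoc, pow_mul_second K h h1 h2, smul_add, smul_add, smul_smul, smul_smul, hf1, hf2,
      mul_smul_comm, mul_smul_comm, mul_smul_comm]
  rw [t4]
  abel

/-- An `sl_2`-triple of nilpotent elements `e`, `f`. -/
structure Triple (N : ℕ) (e f h : A) : Prop where
  ef : e * f = f * e + h
  he : h * e = e * h + 2 • e
  hf : h * f = f * h - 2 • f
  en : e ^ N = 0
  fn : f ^ N = 0

/-- The Weil element. -/
def weil (K : Type*) {A : Type*} [Field K] [Ring A] [Algebra K A] (N : ℕ) (e f : A) : A :=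
  ex K N e * ex K N (-f) * ex K N e

variable {N : ℕ} {e f h : A}

theorem exp_commute {a T : A} (hc : a * T = T * a) (ha : a ^ N = 0) :
    ex K N a * T = T * ex K N a := by
  have := exp_mul_first (K := K) ha (T1 := 0) (by rw [hc, add_zero]) (by simp)
  rwa [add_zero] at this

theorem Triple.weil_e (t : Triple N e f h) : weil K N e f * e = -f * weil K N e f := by
  have hfn : (-f) ^ N = 0 := by rw [neg_pow, t.fn, mul_zero]
  have h1 : ex K N e * e = e * ex K N e := exp_commute rfl t.en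
  have h2 : ex K N (-f) * e = (e + h - f) * ex K N (-f) := by
    have := exp_mul_second (K := K) (a := -f) (T := e) (T1 := h) (T2 := -(2 • f)) hfn
      (by rw [mul_neg, t.ef]; noncomm_ring) (by
        have := t.hf
        rw [neg_mul, mul_neg, this]; noncomm_ring) (by noncomm_ring)
    rw [this]
    congr 1
    rw [smul_neg, two_nsmul, smul_add, ← add_smul]
    norm_num
    abel
  have h3 : ex K N e * h = (h - 2 • e) * ex K N e := by
    have := exp_mul_first (K := K) (a := e) (T := h) (T1 := -(2 • e)) t.en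
      (by rw [t.he]; abel) (by noncomm_ring)
    rw [this, ← sub_eq_add_neg]
  have h4 : ex K N e * f = (f + h - e) * ex K N e := by
    have := exp_mul_second (K := K) (a := e) (T := f) (T1 := h) (T2 := -(2 • e)) t.en
      t.ef (by rw [t.he]; abel) (by noncomm_ring)
    rw [this]
    congr 1
    rw [smul_neg, two_nsmul, smul_add, ← add_smul]
    norm_num
    abel
  have h5 : ex K N e * (e + h - f) = -f * ex K N e := by
    rw [mul_sub, mul_add, h1, h3, h4]
    noncomm_ring
  rw [weil, mul_assoc, h1, ← mul_assoc, mul_assoc (ex K N e) (ex K N (-f)) e, h2, ← mul_assoc, h5]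
  simp only [mul_assoc]

/-- `w T = -T' w` for `T` of highest weight `1`. -/
theorem Triple.weil_high (t : Triple N e f h) {T T' : A} (h1 : e * T = T * e)
    (h2 : f * T = T * f + T') (h3 : e * T' = T' * e + T) (h4 : f * T' = T' * f) :
    weil K N e f * T = -T' * weil K N e f := by
  have hfn : (-f) ^ N = 0 := by rw [neg_pow, t.fn, mul_zero]
  have a1 : ex K N e * T = T * ex K N e := exp_commute h1 t.en
  have a2 : ex K N (-f) * T = (T - T') * ex K N (-f) := by
    have := exp_mul_first (K := K) (a := -f) (T := T) (T1 := -T') hfn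
      (by rw [neg_mul, h2]; noncomm_ring) (by rw [neg_mul, mul_neg, h4]; noncomm_ring)
    rw [this, ← sub_eq_add_neg]
  have a3 : ex K N e * T' = (T' + T) * ex K N e := exp_mul_first t.en h3 h1
  have a4 : ex K N e * (T - T') = -T' * ex K N e := by
    rw [mul_sub, a1, a3]
    noncomm_ring
  rw [weil, mul_assoc, a1, ← mul_assoc, mul_assoc (ex K N e) (ex K N (-f)) T, a2, ← mul_assoc, a4]
  simp only [mul_assoc]

/-- `w T' = T w` for `T` of highest weight `1`. -/
theorem Triple.weil_low (t : Triple N e f h) {T T' : A} (h1 : e * T = T * e)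
    (h2 : f * T = T * f + T') (h3 : e * T' = T' * e + T) (h4 : f * T' = T' * f) :
    weil K N e f * T' = T * weil K N e f := by
  have hfn : (-f) ^ N = 0 := by rw [neg_pow, t.fn, mul_zero]
  have a1 : ex K N e * T = T * ex K N e := exp_commute h1 t.en
  have a2 : ex K N (-f) * T = (T - T') * ex K N (-f) := by
    have := exp_mul_first (K := K) (a := -f) (T := T) (T1 := -T') hfn
      (by rw [neg_mul, h2]; noncomm_ring) (by rw [neg_mul, mul_neg, h4]; noncomm_ring)
    rw [this, ← sub_eq_add_neg]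
  have a3 : ex K N e * T' = (T' + T) * ex K N e := exp_mul_first t.en h3 h1
  have a4 : ex K N (-f) * T' = T' * ex K N (-f) := exp_commute (by rw [neg_mul, mul_neg, h4]) hfn
  have a5 : ex K N (-f) * (T' + T) = T * ex K N (-f) := by
    rw [mul_add, a2, a4]
    noncomm_ring
  rw [weil, mul_assoc, a3, ← mul_assoc, mul_assoc (ex K N e) (ex K N (-f)) _, a5, ← mul_assoc, a1]
  simp only [mul_assoc]

end ring

end Pool.Agent.LibLS20
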