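import Pool.Agent.LibLS20.Ring

/-!
The Weil element on primitive vectors.
-/

namespace Pool.Agent.LibLS20

open Finset

section
variable {K V : Type*} [Field K] [AddCommGroup V] [Module K V]

/-- `x` is a vector of lowest weight `-a`. -/
structure Lowest (e f : Module.End K V) (a : ℕ) (x : V) : Prop where
  fx : f x = 0
  wt : ∀ m : ℕ, e (f ((e ^ m) x)) - f (e ((e ^ m) x)) = (2 * m - a : K) • (e ^ m) x
  top : (e ^ (a + 1)) x = 0

variable {e f : Module.End K V} {a : ℕ} {x : V}

theorem Lowest.f_pow (h : Lowest e f a x) (m : ℕ) :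
    f ((e ^ (m + 1)) x) = ((m + 1) * (a - m) : K) • (e ^ m) x := by
  induction m with
  | zero =>
    have h1 := h.wt 0
    rw [pow_zero, Module.End.one_apply, h.fx, map_zero, zero_sub] at h1
    rw [zero_add, pow_one, ← neg_neg (f (e x)), h1, ← neg_smul, pow_zero, Module.End.one_apply]
    congr 1
    push_cast
    ring
  | succ m ih =>
    have h1 := h.wt (m + 1)
    rw [ih, map_smul] at h1
    have h2 : e ((e ^ m) x) = (e ^ (m + 1)) x := by rw [pow_succ', Module.End.mul_apply]
    have h3 : e ((e ^ (m + 1)) x) = (e ^ (m + 1 + 1)) x := by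
      rw [pow_succ' e (m + 1), Module.End.mul_apply]
    rw [h2, h3] at h1
    have h4 : f ((e ^ (m + 1 + 1)) x) = (((m : K) + 1) * (a - m)) • (e ^ (m + 1)) x -
        (2 * ((m + 1 : ℕ) : K) - a) • (e ^ (m + 1)) x := by
      rw [← h1]
      abel
    rw [h4, ← sub_smul]
    congr 1
    push_cast
    ring

theorem Lowest.pow_zero_of_lt (h : Lowest e f a x) {m : ℕ} (hm : a < m) : (e ^ m) x = 0 := by
  obtain ⟨i, rfl⟩ : ∃ i, m = i + (a + 1) := ⟨m - (a + 1), by omega⟩
  rw [pow_add, Module.End.mul_apply, h.top, map_zero]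

/-- `f ^ i e ^ m x` is a multiple of `e ^ (m - i) x`. -/
theorem Lowest.f_pow_pow (h : Lowest e f a x) (i m : ℕ) :
    ∃ c : K, (f ^ i) ((e ^ (m + i)) x) = c • (e ^ m) x := by
  induction i with
  | zero => exact ⟨1, by simp⟩
  | succ i ih =>
    obtain ⟨c, hc⟩ := ih
    refine ⟨(((m + i : ℕ) : K) + 1) * (a - ((m + i : ℕ) : K)) * c, ?_⟩
    rw [pow_succ, Module.End.mul_apply, ← add_assoc, h.f_pow, map_smul, hc, smul_smul]

theorem Lowest.f_pow_succ (h : Lowest e f a x) (i : ℕ) : (f ^ (i + 1)) ((e ^ i) x) = 0 := by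
  obtain ⟨c, hc⟩ := h.f_pow_pow i 0
  rw [zero_add, pow_zero, Module.End.one_apply] at hc
  rw [pow_succ', Module.End.mul_apply, hc, map_smul, h.fx, smul_zero]

/-- `f ^ b e ^ a x` is a positive multiple of `e ^ (a - b) x`. -/
theorem exists_pos_coef (a b : ℕ) (hb : b ≤ a) : ∃ c : ℝ, 0 < c ∧
    ∀ {V : Type} [AddCommGroup V] [Module ℂ V] {e f : Module.End ℂ V} {x : V},
      Lowest e f a x → (f ^ b) ((e ^ a) x) = (c : ℂ) • (e ^ (a - b)) x := by
  induction b with
  | zero => exact ⟨1, one_pos, fun _ => by simp⟩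
  | succ b ih =>
    obtain ⟨c, hc, h1⟩ := ih (by omega)
    refine ⟨((a - b - 1 : ℕ) + 1 : ℝ) * ((a : ℝ) - (a - b - 1 : ℕ)) * c, ?_, ?_⟩
    · refine mul_pos (mul_pos (by positivity) ?_) hc
      rw [sub_pos, Nat.cast_lt]
      omega
    · intro V _ _ e f x h
      have h3 : a - b - 1 = a - (b + 1) := by omega
      have h2 : a - b = (a - (b + 1)) + 1 := by omega
      rw [h3, pow_succ', Module.End.mul_apply, h1 h, map_smul, h2, h.f_pow, smul_smul]
      congr 1
      push_cast
      ring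

variable [CharZero K]

/-- The vectors `e ^ m x / m!`. -/
def gv (e : Module.End K V) (x : V) (m : ℕ) : V := (m.factorial : K)⁻¹ • (e ^ m) x

theorem Lowest.f_gv (h : Lowest e f a x) (m : ℕ) :
    f (gv e x (m + 1)) = (a - m : K) • gv e x m := by
  rw [gv, gv, map_smul, h.f_pow, smul_smul, smul_smul]
  congr 1
  rw [Nat.factorial_succ]
  have h1 : (m.factorial : K) ≠ 0 := Nat.cast_ne_zero.mpr m.factorial_ne_zero
  have h2 : ((m + 1 : ℕ) : K) ≠ 0 := Nat.cast_ne_zero.mpr (Nat.succ_ne_zero _)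
  push_cast at h2 ⊢
  field_simp

/-- The sums `∑ C(a - m, j) e ^ m x / m!`. -/
def gs (e : Module.End K V) (a : ℕ) (x : V) (j : ℕ) : V :=
  ∑ m ∈ range (a + 1), ((a - m).choose j : K) • gv e x m

theorem Lowest.f_gs (h : Lowest e f a x) (j : ℕ) :
    f (gs e a x j) = ((j + 1 : ℕ) : K) • gs e a x (j + 1) := by
  have h0 : f (gv e x 0) = 0 := by simp [gv, h.fx]
  rw [gs, gs, map_sum, Finset.sum_range_succ', Finset.sum_range_succ, map_smul, h0, smul_zero,
    add_zero, Nat.sub_self, Nat.choose_zero_succ, Nat.cast_zero, zero_smul, add_zero,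
    Finset.smul_sum]
  refine Finset.sum_congr rfl fun m hm => ?_
  have hm' := mem_range.mp hm
  rw [map_smul, h.f_gv, smul_smul, smul_smul]
  congr 1
  have h1 : a - m = (a - (m + 1)) + 1 := by omega
  have h2 : (a : K) - m = ((a - (m + 1) + 1 : ℕ) : K) := by
    rw [← h1, Nat.cast_sub hm'.le]
  rw [h2, h1, ← Nat.cast_mul, ← Nat.cast_mul, mul_comm, Nat.add_one_mul_choose_eq, mul_comm]

theorem Lowest.f_pow_gs (h : Lowest e f a x) (j : ℕ) :
    (f ^ j) (gs e a x 0) = (j.factorial : K) • gs e a x j := by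
  induction j with
  | zero => simp
  | succ j ih =>
    rw [pow_succ', Module.End.mul_apply, ih, map_smul, h.f_gs, smul_smul, Nat.factorial_succ]
    congr 1
    push_cast
    ring

omit [CharZero K] in
theorem ex_apply (N : ℕ) (u : Module.End K V) (y : V) :
    ex K N u y = ∑ i ∈ range N, (i.factorial : K)⁻¹ • (u ^ i) y := by
  rw [ex, LinearMap.sum_apply]
  rfl

omit [CharZero K] in
theorem Lowest.ex_e (h : Lowest e f a x) {N : ℕ} (hN : a < N) :
    ex K N e x = gs e a x 0 := by
  rw [ex_apply, gs]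
  have h1 : range (a + 1) ⊆ range N := range_subset_range.mpr hN
  rw [← Finset.sum_subset h1]
  · refine Finset.sum_congr rfl fun i _ => ?_
    rw [Nat.choose_zero_right, Nat.cast_one, one_smul, gv]
  · intro i _ hi
    rw [mem_range, not_lt] at hi
    rw [h.pow_zero_of_lt (by omega), smul_zero]

omit [CharZero K] in
theorem alt_choose (r N : ℕ) (h : r < N) :
    ∑ j ∈ range N, (-1 : K) ^ j * (r.choose j : K) = if r = 0 then 1 else 0 := by
  have h1 : range (r + 1) ⊆ range N := range_subset_range.mpr h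
  rw [← Finset.sum_subset h1]
  · have h2 := Int.alternating_sum_range_choose (n := r)
    have h3 := congrArg (fun z : ℤ => (z : K)) h2
    push_cast at h3
    rw [h3]
  · intro i _ hi
    rw [mem_range, not_lt] at hi
    rw [Nat.choose_eq_zero_of_lt (by omega), Nat.cast_zero, mul_zero]

theorem Lowest.ex_f (h : Lowest e f a x) {N : ℕ} (hN : a < N) :
    ex K N (-f) (gs e a x 0) = gv e x a := by
  rw [ex_apply]
  have h1 : ∀ j : ℕ, (j.factorial : K)⁻¹ • ((-f) ^ j) (gs e a x 0)
      = ∑ m ∈ range (a + 1), ((-1 : K) ^ j * ((a - m).choose j : K)) • gv e x m := by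
    intro j
    have h2 : ((-f) ^ j) (gs e a x 0) = (-1 : K) ^ j • (f ^ j) (gs e a x 0) := by
      have h3 : (-f) ^ j = ((-1 : K) ^ j) • f ^ j := by
        rw [← smul_pow, neg_one_smul]
      rw [h3]
      rfl
    have h4 : (j.factorial : K) ≠ 0 := Nat.cast_ne_zero.mpr j.factorial_ne_zero
    rw [h2, h.f_pow_gs, smul_comm ((-1 : K) ^ j), smul_smul, inv_mul_cancel₀ h4, one_smul, gs,
      Finset.smul_sum]
    refine Finset.sum_congr rfl fun m _ => ?_
    rw [smul_smul]
  rw [Finset.sum_congr rfl fun j _ => h1 j, Finset.sum_comm, Finset.sum_eq_single a]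
  · rw [← Finset.sum_smul, alt_choose _ _ (by omega), if_pos (Nat.sub_self a), one_smul]
  · intro m hm hma
    have hm' := mem_range.mp hm
    rw [← Finset.sum_smul, alt_choose _ _ (by omega), if_neg (by omega), zero_smul]
  · intro ha
    exact absurd (mem_range.mpr (Nat.lt_succ_self a)) ha

/-- The value of the Weil element on a vector of lowest weight. -/
theorem Lowest.weil (h : Lowest e f a x) {N : ℕ} (hN : a < N) :
    weil K N e f x = (a.factorial : K)⁻¹ • (e ^ a) x := by
  rw [LibLS20.weil, Module.End.mul_apply, Module.End.mul_apply, h.ex_e hN, h.ex_f hN, ex_apply]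
  rw [Finset.sum_eq_single 0]
  · simp [gv]
  · intro i _ hi
    obtain ⟨i, rfl⟩ : ∃ l, i = l + 1 := ⟨i - 1, by omega⟩
    rw [gv, map_smul, ← Module.End.mul_apply, ← pow_add, h.pow_zero_of_lt (by omega), smul_zero,
      smul_zero]
  · intro h0
    exact absurd (mem_range.mpr (by omega)) h0

end

end Pool.Agent.LibLS20
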